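import Pool.Agent.J4.H76.BP.Space

/-!
# Compact operators are limits of finite rank operators with values in the span of generators
-/

open Filter Topology Metric Set
open scoped ENNReal BoundedContinuousFunction

namespace H76BP

section hilbert
variable {𝕜 : Type} [RCLike 𝕜] {H : Type} [NormedAddCommGroup H] [InnerProductSpace 𝕜 H]

/-- Partial sums of the expansion with respect to an orthonormal sequence. -/
noncomputable def Q (e : ℕ → H) (m : ℕ) : H →L[𝕜] H :=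
  ∑ i ∈ Finset.range m, (innerSL 𝕜 (e i)).smulRight (e i)

lemma Q_apply (e : ℕ → H) (m : ℕ) (h : H) :
    Q (𝕜 := 𝕜) e m h = ∑ i ∈ Finset.range m, inner 𝕜 (e i) h • e i := by
  unfold Q
  rw [sum_apply]
  refine Finset.sum_congr rfl fun i _ => ?_
  rw [ContinuousLinearMap.smulRight_apply, innerSL_apply_apply]

lemma inner_Q (e : ℕ → H) (m : ℕ) (r h : H) :
    inner 𝕜 r (Q (𝕜 := 𝕜) e m h) = inner 𝕜 (Q (𝕜 := 𝕜) e m r) h := by
  rw [Q_apply, Q_apply, inner_sum, sum_inner]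
  refine Finset.sum_congr rfl fun i _ => ?_
  rw [inner_smul_right, inner_smul_left, inner_conj_symm, mul_comm]

lemma norm_sub_Q_le {e : ℕ → H} (he : Orthonormal 𝕜 e) (m : ℕ) (h : H) :
    ‖h - Q (𝕜 := 𝕜) e m h‖ ≤ ‖h‖ := by
  set v := h - Q (𝕜 := 𝕜) e m h with hv
  have h1 : ∀ i ∈ Finset.range m, inner 𝕜 (e i) v = 0 := by
    intro i hi
    rw [hv, inner_sub_right, Q_apply, he.inner_right_sum _ hi, sub_self]
  have h2 : inner 𝕜 v (Q (𝕜 := 𝕜) e m h) = 0 := by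
    rw [Q_apply, inner_sum]
    refine Finset.sum_eq_zero fun i hi => ?_
    rw [inner_smul_right, ← inner_conj_symm v, h1 i hi, map_zero, mul_zero]
  have h3 : ‖h‖ ^ 2 = ‖v‖ ^ 2 + ‖Q (𝕜 := 𝕜) e m h‖ ^ 2 := by
    have : h = v + Q (𝕜 := 𝕜) e m h := by rw [hv]; abel
    have h4 := norm_add_sq (𝕜 := 𝕜) v (Q (𝕜 := 𝕜) e m h)
    rw [← this, h2, map_zero, mul_zero, add_zero] at h4
    exact h4
  nlinarith [norm_nonneg h, norm_nonneg v, sq_nonneg ‖Q (𝕜 := 𝕜) e m h‖]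

lemma tendsto_sub_Q (e : HilbertBasis ℕ 𝕜 H) (r : H) :
    Tendsto (fun m => ‖r - Q (𝕜 := 𝕜) e m r‖) atTop (𝓝 0) := by
  have h1 : HasSum (fun i => e.repr r i • e i) r := e.hasSum_repr r
  have h2 := h1.tendsto_sum_nat
  have h3 : (fun m => ∑ i ∈ Finset.range m, e.repr r i • e i) = fun m => Q (𝕜 := 𝕜) e m r := by
    funext m
    rw [Q_apply]
    refine Finset.sum_congr rfl fun i _ => ?_
    rw [e.repr_apply_apply]
  rw [h3] at h2
  have h4 : Tendsto (fun m => r - Q (𝕜 := 𝕜) e m r) atTop (𝓝 (r - r)) :=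
    tendsto_const_nhds.sub h2
  rw [sub_self] at h4
  simpa using h4.norm

/-- Compact operators on a Hilbert space are approximated by their restrictions to the first
basis vectors. -/
lemma approx_hilbert [CompleteSpace H] (e : HilbertBasis ℕ 𝕜 H) {Z : Type} [NormedAddCommGroup Z]
    [NormedSpace 𝕜 Z] (K : H →L[𝕜] Z) (hK : IsCompactOperator K) {δ : ℝ} (hδ : 0 < δ) :
    ∃ m : ℕ, ∀ h : H, ‖K h - K (Q (𝕜 := 𝕜) e m h)‖ ≤ δ * ‖h‖ := by
  by_contra hcon
  push Not at hcon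
  choose h hh using hcon
  have hne : ∀ m, ‖h m‖ ≠ 0 := by
    intro m h0
    have h1 := hh m
    rw [norm_eq_zero.1 h0] at h1
    simp at h1
  -- normalise
  set k : ℕ → H := fun m => ((‖h m‖⁻¹ : ℝ) : 𝕜) • h m with hk
  have hk1 : ∀ m, ‖k m‖ = 1 := by
    intro m
    rw [hk]
    simp only
    rw [norm_smul, RCLike.norm_ofReal, abs_of_nonneg (by positivity),
      inv_mul_cancel₀ (hne m)]
  have hk2 : ∀ m, δ ≤ ‖K (k m - Q (𝕜 := 𝕜) e m (k m))‖ := by
    intro m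
    rw [map_sub, hk]
    simp only [map_smul]
    rw [← smul_sub, norm_smul, RCLike.norm_ofReal, abs_of_nonneg (by positivity)]
    have h1 := (hh m).le
    have h2 : 0 < ‖h m‖ := lt_of_le_of_ne (norm_nonneg _) (hne m).symm
    rw [inv_mul_eq_div, le_div_iff₀ h2]
    exact h1
  set v : ℕ → H := fun m => k m - Q (𝕜 := 𝕜) e m (k m) with hv
  have hv1 : ∀ m, v m ∈ closedBall (0 : H) 1 := by
    intro m
    rw [mem_closedBall_zero_iff]
    exact (norm_sub_Q_le e.orthonormal m (k m)).trans (hk1 m).le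
  obtain ⟨C, hC, hCsub⟩ := hK.image_closedBall_subset_compact (f := (K : H →ₗ[𝕜] Z)) 1
  have hmem : ∀ m, K (v m) ∈ C := fun m => hCsub ⟨v m, hv1 m, rfl⟩
  obtain ⟨z, -, φ, hφ, hz⟩ := hC.tendsto_subseq hmem
  have hz0 : z = 0 := by
    by_contra hne0
    obtain ⟨l, hl1, hl2⟩ := exists_dual_vector 𝕜 z (norm_ne_zero_iff.2 hne0)
    -- `l (K (v m)) → 0`
    set r : H := (InnerProductSpace.toDual 𝕜 H).symm (l.comp K) with hr
    have hrv : ∀ x, inner 𝕜 r x = l (K x) := by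
      intro x
      rw [hr, InnerProductSpace.toDual_symm_apply]
      rfl
    have hb : ∀ m, ‖l (K (v m))‖ ≤ ‖r - Q (𝕜 := 𝕜) e m r‖ := by
      intro m
      rw [← hrv, hv]
      simp only
      rw [inner_sub_right, inner_Q, ← inner_sub_left]
      refine (norm_inner_le_norm _ _).trans ?_
      rw [hk1, mul_one]
    have ht : Tendsto (fun m => l (K (v m))) atTop (𝓝 0) :=
      squeeze_zero_norm hb (tendsto_sub_Q e r)
    have ht2 : Tendsto (fun m => l (K (v (φ m)))) atTop (𝓝 (l z)) :=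
      (l.continuous.tendsto z).comp hz
    have ht3 := ht.comp hφ.tendsto_atTop
    have h0 : l z = 0 := tendsto_nhds_unique ht2 ht3
    rw [hl2] at h0
    exact hne0 (norm_eq_zero.1 (by exact_mod_cast h0))
  rw [hz0] at hz
  have h5 : Tendsto (fun m => ‖K (v (φ m))‖) atTop (𝓝 0) := by simpa using hz.norm
  have h6 : δ ≤ 0 := ge_of_tendsto' h5 fun m => hk2 (φ m)
  linarith

end hilbert

section
variable {𝕜 : Type} [RCLike 𝕜] {H : Type} [NormedAddCommGroup H] [InnerProductSpace 𝕜 H]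

lemma op_append {n m : ℕ} (ψ : Fin n → (XX 𝕜 H →L[𝕜] 𝕜)) (c : Fin n → Gam 𝕜 H)
    (ψ' : Fin m → (XX 𝕜 H →L[𝕜] 𝕜)) (c' : Fin m → Gam 𝕜 H) :
    op ψ c + op ψ' c' = op (Fin.append ψ ψ') (Fin.append c c') := by
  unfold op
  rw [Fin.sum_univ_add]
  congr 1
  · refine Finset.sum_congr rfl fun i _ => ?_
    rw [Fin.append_left, Fin.append_left]
  · refine Finset.sum_congr rfl fun i _ => ?_
    rw [Fin.append_right, Fin.append_right]

lemma op_smul {n : ℕ} (a : 𝕜) (ψ : Fin n → (XX 𝕜 H →L[𝕜] 𝕜)) (c : Fin n → Gam 𝕜 H) :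
    a • op ψ c = op (fun j => a • ψ j) c := by
  unfold op
  rw [Finset.smul_sum]
  refine Finset.sum_congr rfl fun i _ => ?_
  ext x
  simp [smul_smul]

variable (𝕜 H) in
/-- Operators approximable by `op`. -/
def Appr : Set (XX 𝕜 H →L[𝕜] YY 𝕜 H) :=
  {A | ∀ δ > 0, ∃ (n : ℕ) (ψ : Fin n → (XX 𝕜 H →L[𝕜] 𝕜)) (c : Fin n → Gam 𝕜 H),
    ‖A - op ψ c‖ < δ}

lemma appr_op {n : ℕ} (ψ : Fin n → (XX 𝕜 H →L[𝕜] 𝕜)) (c : Fin n → Gam 𝕜 H) :
    op ψ c ∈ Appr 𝕜 H := by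
  intro δ hδ
  refine ⟨n, ψ, c, ?_⟩
  rw [sub_self, norm_zero]
  exact hδ

lemma appr_add {A B : XX 𝕜 H →L[𝕜] YY 𝕜 H} (hA : A ∈ Appr 𝕜 H) (hB : B ∈ Appr 𝕜 H) :
    A + B ∈ Appr 𝕜 H := by
  intro δ hδ
  obtain ⟨n, ψ, c, h1⟩ := hA (δ / 2) (by positivity)
  obtain ⟨n', ψ', c', h2⟩ := hB (δ / 2) (by positivity)
  refine ⟨n + n', Fin.append ψ ψ', Fin.append c c', ?_⟩
  rw [← op_append]
  have : A + B - (op ψ c + op ψ' c') = (A - op ψ c) + (B - op ψ' c') := by abel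
  rw [this]
  refine lt_of_le_of_lt (norm_add_le _ _) ?_
  linarith

lemma appr_smul {A : XX 𝕜 H →L[𝕜] YY 𝕜 H} (a : 𝕜) (hA : A ∈ Appr 𝕜 H) :
    a • A ∈ Appr 𝕜 H := by
  intro δ hδ
  obtain ⟨n, ψ, c, h1⟩ := hA (δ / (‖a‖ + 1)) (by positivity)
  refine ⟨n, fun j => a • ψ j, c, ?_⟩
  rw [← op_smul, ← smul_sub, norm_smul]
  have h2 : 0 ≤ ‖a‖ := norm_nonneg a
  rw [lt_div_iff₀ (by positivity)] at h1
  nlinarith [norm_nonneg (A - op ψ c)]

lemma appr_closed {A : XX 𝕜 H →L[𝕜] YY 𝕜 H} (h : ∀ δ > 0, ∃ B ∈ Appr 𝕜 H, ‖A - B‖ < δ) :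
    A ∈ Appr 𝕜 H := by
  intro δ hδ
  obtain ⟨B, hB, h1⟩ := h (δ / 2) (by positivity)
  obtain ⟨n, ψ, c, h2⟩ := hB (δ / 2) (by positivity)
  refine ⟨n, ψ, c, ?_⟩
  have : A - op ψ c = (A - B) + (B - op ψ c) := by abel
  rw [this]
  refine lt_of_le_of_lt (norm_add_le _ _) ?_
  linarith

lemma appr_sum {ι : Type} (s : Finset ι) (A : ι → (XX 𝕜 H →L[𝕜] YY 𝕜 H))
    (h : ∀ i ∈ s, A i ∈ Appr 𝕜 H) : ∑ i ∈ s, A i ∈ Appr 𝕜 H := by
  classical
  induction s using Finset.induction_on with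
  | empty =>
    rw [Finset.sum_empty]
    have : (0 : XX 𝕜 H →L[𝕜] YY 𝕜 H) = op (n := 0) Fin.elim0 Fin.elim0 := by
      unfold op; simp
    rw [this]
    exact appr_op _ _
  | insert a s ha ih =>
    rw [Finset.sum_insert ha]
    exact appr_add (h a (Finset.mem_insert_self _ _))
      (ih fun i hi => h i (Finset.mem_insert_of_mem hi))

lemma appr_smulRight (φ : XX 𝕜 H →L[𝕜] 𝕜) (y : YY 𝕜 H) : φ.smulRight y ∈ Appr 𝕜 H := by
  refine YY_induction (p := fun y => φ.smulRight y ∈ Appr 𝕜 H) ?_ ?_ ?_ ?_ ?_ y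
  · intro γ
    have : φ.smulRight (ge γ) = op (n := 1) (fun _ => φ) (fun _ => γ) := by
      unfold op; simp
    rw [this]
    exact appr_op _ _
  · have : φ.smulRight (0 : YY 𝕜 H) = op (n := 0) Fin.elim0 Fin.elim0 := by
      unfold op; simp
    rw [this]
    exact appr_op _ _
  · intro x y hx hy
    have : φ.smulRight (x + y) = φ.smulRight x + φ.smulRight y := by
      ext z; simp [smul_add]
    rw [this]
    exact appr_add hx hy
  · intro a x hx
    have : φ.smulRight (a • x) = a • φ.smulRight x := by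
      ext z; simp [smul_smul, mul_comm]
    rw [this]
    exact appr_smul a hx
  · intro y hy
    apply appr_closed
    intro δ hδ
    obtain ⟨x, hx, h1⟩ := hy (δ / (‖φ‖ + 1)) (by positivity)
    refine ⟨φ.smulRight x, hx, ?_⟩
    have : φ.smulRight y - φ.smulRight x = φ.smulRight (y - x) := by
      ext z; simp [smul_sub]
    rw [this]
    have h2 : 0 ≤ ‖φ‖ := norm_nonneg φ
    rw [lt_div_iff₀ (by positivity)] at h1
    rw [ContinuousLinearMap.norm_smulRight_apply]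
    nlinarith [norm_nonneg (y - x)]

/-- The inclusion of the Hilbert space. -/
noncomputable def inrL : H →L[𝕜] XX 𝕜 H :=
  ((WithLp.prodContinuousLinearEquiv 4 𝕜 𝕜 H).symm : (𝕜 × H) →L[𝕜] WithLp 4 (𝕜 × H)).comp
    (ContinuousLinearMap.inr 𝕜 𝕜 H)

lemma inrL_apply (h : H) : (inrL h : XX 𝕜 H) = WithLp.toLp 4 ((0 : 𝕜), h) := rfl

variable [CompleteSpace H]

/-- Every compact operator into the range space is approximable. -/
lemma appr_compact (e : HilbertBasis ℕ 𝕜 H) (T : XX 𝕜 H →L[𝕜] YY 𝕜 H)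
    (hT : IsCompactOperator T) : T ∈ Appr 𝕜 H := by
  apply appr_closed
  intro δ hδ
  have hK : IsCompactOperator (T.comp (inrL : H →L[𝕜] XX 𝕜 H)) := hT.comp_clm _
  obtain ⟨m, hm⟩ := approx_hilbert e (T.comp (inrL : H →L[𝕜] XX 𝕜 H)) hK
    (δ := δ / 2) (by positivity)
  set A : XX 𝕜 H →L[𝕜] YY 𝕜 H :=
    (WithLp.fstL 4 𝕜 𝕜 H).smulRight (T (WithLp.toLp 4 ((1 : 𝕜), (0 : H)))) +
      ∑ i ∈ Finset.range m,
        ((innerSL 𝕜 (e i)).comp (WithLp.sndL 4 𝕜 𝕜 H)).smulRight (T (inrL (e i))) with hA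
  refine ⟨A, ?_, ?_⟩
  · exact appr_add (appr_smulRight _ _) (appr_sum _ _ fun i _ => appr_smulRight _ _)
  · have h1 : ∀ x : XX 𝕜 H, (T - A) x = T (inrL x.snd) - T (inrL (Q (𝕜 := 𝕜) e m x.snd)) := by
      intro x
      have e1 : x = x.fst • WithLp.toLp 4 ((1 : 𝕜), (0 : H)) + inrL x.snd := by
        rw [inrL_apply]
        apply WithLp.ofLp_injective 4
        apply Prod.ext
        · simp
        · simp
      have e2 : T (inrL (Q (𝕜 := 𝕜) e m x.snd)) =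
          ∑ i ∈ Finset.range m, inner 𝕜 (e i) x.snd • T (inrL (e i)) := by
        rw [Q_apply, map_sum, map_sum]
        refine Finset.sum_congr rfl fun i _ => ?_
        rw [map_smul, map_smul]
      have e3 : A x = x.fst • T (WithLp.toLp 4 ((1 : 𝕜), (0 : H))) +
          ∑ i ∈ Finset.range m, inner 𝕜 (e i) x.snd • T (inrL (e i)) := by
        rw [hA, add_apply, sum_apply]
        rfl
      have e4 : T x = x.fst • T (WithLp.toLp 4 ((1 : 𝕜), (0 : H))) + T (inrL x.snd) := by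
        conv_lhs => rw [e1]
        rw [map_add, map_smul]
      rw [sub_apply, e4, e3, e2]
      abel
    refine lt_of_le_of_lt (ContinuousLinearMap.opNorm_le_bound _ (M := δ / 2) (by positivity)
      fun x => ?_) (by linarith)
    rw [h1]
    refine (hm x.snd).trans ?_
    exact mul_le_mul_of_nonneg_left (WithLp.norm_snd_le _ x) (by positivity)

end

end H76BP
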