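import Mathlib

/-!
# The pointwise Bishop-Phelps-Bollobas property and its compact version

The domain space `X = 𝕜 ⊕₄ H`.
-/

open Filter Topology Metric Set
open scoped ENNReal

namespace H76BP

/-- The pair `(X, Y)` has the pointwise Bishop-Phelps-Bollobas property. -/
def PointwiseBPB (𝕜 : Type) [RCLike 𝕜] (X Y : Type) [NormedAddCommGroup X] [NormedSpace 𝕜 X]
    [NormedAddCommGroup Y] [NormedSpace 𝕜 Y] : Prop :=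
  ∀ ε : ℝ, 0 < ε → ∃ η : ℝ, 0 < η ∧ ∀ T : X →L[𝕜] Y, ‖T‖ = 1 → ∀ x₀ : X, ‖x₀‖ = 1 →
    1 - η < ‖T x₀‖ → ∃ S : X →L[𝕜] Y, ‖S‖ = 1 ∧ ‖S x₀‖ = 1 ∧ ‖S - T‖ < ε

/-- The pair `(X, Y)` has the pointwise Bishop-Phelps-Bollobas property for compact operators. -/
def PointwiseBPBCompact (𝕜 : Type) [RCLike 𝕜] (X Y : Type) [NormedAddCommGroup X]
    [NormedSpace 𝕜 X] [NormedAddCommGroup Y] [NormedSpace 𝕜 Y] : Prop :=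
  ∀ ε : ℝ, 0 < ε → ∃ η : ℝ, 0 < η ∧ ∀ T : X →L[𝕜] Y, IsCompactOperator T → ‖T‖ = 1 →
    ∀ x₀ : X, ‖x₀‖ = 1 → 1 - η < ‖T x₀‖ →
      ∃ S : X →L[𝕜] Y, IsCompactOperator S ∧ ‖S‖ = 1 ∧ ‖S x₀‖ = 1 ∧ ‖S - T‖ < ε

instance fact4 : Fact ((1 : ℝ≥0∞) ≤ 4) := ⟨by norm_num⟩

section
variable (𝕜 : Type) [RCLike 𝕜] (H : Type) [NormedAddCommGroup H] [InnerProductSpace 𝕜 H]

/-- The domain space `𝕜 ⊕₄ H`. -/
abbrev XX : Type := WithLp 4 (𝕜 × H)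

variable {𝕜 H}

omit [InnerProductSpace 𝕜 H] in
lemma norm_pow4 (x : XX 𝕜 H) : ‖x‖ ^ 4 = ‖x.fst‖ ^ 4 + ‖x.snd‖ ^ 4 := by
  have h := WithLp.prod_norm_eq_of_nat (p := 4) 4 (by norm_num) x
  rw [h]
  have h0 : 0 ≤ ‖x.fst‖ ^ 4 + ‖x.snd‖ ^ 4 := by positivity
  rw [← Real.rpow_natCast, ← Real.rpow_mul h0]
  norm_num

include 𝕜 in
lemma hilbert4 (u v : H) : ‖u + v‖ ^ 4 + ‖u - v‖ ^ 4 ≤
    2 * ‖u‖ ^ 4 + 12 * (‖u‖ ^ 2 * ‖v‖ ^ 2) + 2 * ‖v‖ ^ 4 := by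
  have h1 : ‖u + v‖ ^ 2 = ‖u‖ ^ 2 + 2 * RCLike.re (inner 𝕜 u v) + ‖v‖ ^ 2 :=
    norm_add_sq (𝕜 := 𝕜) u v
  have h2 : ‖u - v‖ ^ 2 = ‖u‖ ^ 2 - 2 * RCLike.re (inner 𝕜 u v) + ‖v‖ ^ 2 :=
    norm_sub_sq (𝕜 := 𝕜) u v
  have h3 : |RCLike.re (inner 𝕜 u v)| ≤ ‖u‖ * ‖v‖ :=
    (RCLike.abs_re_le_norm _).trans (norm_inner_le_norm u v)
  have h4 : (RCLike.re (inner 𝕜 u v)) ^ 2 ≤ ‖u‖ ^ 2 * ‖v‖ ^ 2 := by
    rw [← mul_pow, ← sq_abs]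
    exact pow_le_pow_left₀ (abs_nonneg _) h3 2
  have e1 : ‖u + v‖ ^ 4 = (‖u‖ ^ 2 + 2 * RCLike.re (inner 𝕜 u v) + ‖v‖ ^ 2) ^ 2 := by
    rw [← h1]; ring
  have e2 : ‖u - v‖ ^ 4 = (‖u‖ ^ 2 - 2 * RCLike.re (inner 𝕜 u v) + ‖v‖ ^ 2) ^ 2 := by
    rw [← h2]; ring
  rw [e1, e2]
  nlinarith [h4]

/-- The modulus of smoothness of `𝕜 ⊕₄ H` has power type two. -/
lemma two_point (x h : XX 𝕜 H) (hx : ‖x‖ = 1) (hh : ‖h‖ ≤ 1) {t : ℝ} (ht0 : 0 ≤ t)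
    (ht1 : t ≤ 1) : ‖x + (t : 𝕜) • h‖ + ‖x - (t : 𝕜) • h‖ ≤ 2 + 4 * t ^ 2 := by
  have hx4 := norm_pow4 x
  have hh4 := norm_pow4 h
  have hA := norm_pow4 (x + (t : 𝕜) • h)
  have hB := norm_pow4 (x - (t : 𝕜) • h)
  simp only [WithLp.add_fst, WithLp.add_snd, WithLp.sub_fst, WithLp.sub_snd, WithLp.smul_fst,
    WithLp.smul_snd] at hA hB
  have k1 := hilbert4 (𝕜 := 𝕜) x.fst ((t : 𝕜) • h.fst)
  have k2 := hilbert4 (𝕜 := 𝕜) x.snd ((t : 𝕜) • h.snd)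
  have n1 : ‖(t : 𝕜) • h.fst‖ = t * ‖h.fst‖ := by
    rw [norm_smul, RCLike.norm_ofReal, abs_of_nonneg ht0]
  have n2 : ‖(t : 𝕜) • h.snd‖ = t * ‖h.snd‖ := by
    rw [norm_smul, RCLike.norm_ofReal, abs_of_nonneg ht0]
  rw [n1] at k1
  rw [n2] at k2
  rw [hx, one_pow] at hx4
  have hh1 : ‖h.fst‖ ^ 4 + ‖h.snd‖ ^ 4 ≤ 1 := by
    rw [← hh4]
    exact pow_le_one₀ (norm_nonneg _) hh
  set a := ‖x.fst‖ ^ 2 with ha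
  set b := ‖x.snd‖ ^ 2 with hb
  set c := ‖h.fst‖ ^ 2 with hc
  set d := ‖h.snd‖ ^ 2 with hd
  have a0 : 0 ≤ a := by positivity
  have b0 : 0 ≤ b := by positivity
  have c0 : 0 ≤ c := by positivity
  have d0 : 0 ≤ d := by positivity
  have hab : a ^ 2 + b ^ 2 = 1 := by rw [ha, hb]; linarith [hx4]
  have hcd : c ^ 2 + d ^ 2 ≤ 1 := by
    have : c ^ 2 + d ^ 2 = ‖h.fst‖ ^ 4 + ‖h.snd‖ ^ 4 := by rw [hc, hd]; ring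
    linarith
  have hcs : a * c + b * d ≤ 1 := by nlinarith [sq_nonneg (a - c), sq_nonneg (b - d)]
  have t2 : t ^ 2 ≤ 1 := pow_le_one₀ ht0 ht1
  have t0 : 0 ≤ t ^ 2 := by positivity
  have hsum : ‖x + (t : 𝕜) • h‖ ^ 4 + ‖x - (t : 𝕜) • h‖ ^ 4 ≤ 2 + 14 * t ^ 2 := by
    rw [hA, hB]
    have e1 : 2 * ‖x.fst‖ ^ 4 + 12 * (‖x.fst‖ ^ 2 * (t * ‖h.fst‖) ^ 2) + 2 * (t * ‖h.fst‖) ^ 4
        = 2 * a ^ 2 + 12 * t ^ 2 * (a * c) + 2 * (t ^ 2) ^ 2 * c ^ 2 := by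
      rw [ha, hc]; ring
    have e2 : 2 * ‖x.snd‖ ^ 4 + 12 * (‖x.snd‖ ^ 2 * (t * ‖h.snd‖) ^ 2) + 2 * (t * ‖h.snd‖) ^ 4
        = 2 * b ^ 2 + 12 * t ^ 2 * (b * d) + 2 * (t ^ 2) ^ 2 * d ^ 2 := by
      rw [hb, hd]; ring
    rw [e1] at k1
    rw [e2] at k2
    have f1 : 12 * t ^ 2 * (a * c) + 12 * t ^ 2 * (b * d) ≤ 12 * t ^ 2 := by
      nlinarith [mul_le_mul_of_nonneg_left hcs t0]
    have f2 : 2 * (t ^ 2) ^ 2 * c ^ 2 + 2 * (t ^ 2) ^ 2 * d ^ 2 ≤ 2 * t ^ 2 := by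
      have g1 : (t ^ 2) ^ 2 ≤ t ^ 2 := by nlinarith
      have g2 : (t ^ 2) ^ 2 * (c ^ 2 + d ^ 2) ≤ t ^ 2 * 1 :=
        mul_le_mul g1 hcd (by positivity) t0
      nlinarith
    nlinarith
  have amgm : ∀ y : ℝ, 0 ≤ y → y ≤ (y ^ 4 + 3) / 4 := by
    intro y hy
    nlinarith [sq_nonneg (y ^ 2 - 1), sq_nonneg (y - 1)]
  have q1 := amgm _ (norm_nonneg (x + (t : 𝕜) • h))
  have q2 := amgm _ (norm_nonneg (x - (t : 𝕜) • h))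
  linarith

/-- Uniform smoothness in its dual form. -/
lemma dual_close (x : XX 𝕜 H) (hx : ‖x‖ = 1) (f g : XX 𝕜 H →L[𝕜] 𝕜) (hf : ‖f‖ ≤ 1)
    (hg : ‖g‖ ≤ 1) (hfx : f x = 1) {t : ℝ} (ht0 : 0 < t) (ht1 : t ≤ 1)
    (hgx : 1 - 2 * t ^ 2 ≤ RCLike.re (g x)) : ‖f - g‖ ≤ 6 * t := by
  apply ContinuousLinearMap.opNorm_le_of_unit_norm (by positivity)
  intro h hh
  -- rotate `h`
  obtain ⟨c, hc1, hc2⟩ : ∃ c : 𝕜, ‖c‖ = 1 ∧ c * (f - g) h = (‖(f - g) h‖ : 𝕜) := by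
    by_cases h0 : (f - g) h = 0
    · exact ⟨1, by simp, by rw [h0]; simp⟩
    · refine ⟨(‖(f - g) h‖ : 𝕜) / (f - g) h, ?_, ?_⟩
      · rw [norm_div, RCLike.norm_ofReal, abs_of_nonneg (norm_nonneg _),
          div_self (norm_ne_zero_iff.2 h0)]
      · rw [div_mul_cancel₀ _ h0]
  have hch : ‖c • h‖ ≤ 1 := by rw [norm_smul, hc1, hh]; norm_num
  have key := two_point x (c • h) hx hch ht0.le ht1
  have b1 : RCLike.re (f (x + (t : 𝕜) • (c • h))) ≤ ‖x + (t : 𝕜) • (c • h)‖ := by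
    refine (RCLike.re_le_norm _).trans ((f.le_opNorm _).trans ?_)
    exact mul_le_of_le_one_left (norm_nonneg _) hf
  have b2 : RCLike.re (g (x - (t : 𝕜) • (c • h))) ≤ ‖x - (t : 𝕜) • (c • h)‖ := by
    refine (RCLike.re_le_norm _).trans ((g.le_opNorm _).trans ?_)
    exact mul_le_of_le_one_left (norm_nonneg _) hg
  have e1 : f (x + (t : 𝕜) • (c • h)) + g (x - (t : 𝕜) • (c • h)) =
      f x + g x + (t : 𝕜) * (c * (f - g) h) := by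
    simp only [map_add, map_sub, map_smul, smul_eq_mul, sub_apply]
    ring
  have e2 : RCLike.re (f (x + (t : 𝕜) • (c • h))) + RCLike.re (g (x - (t : 𝕜) • (c • h))) =
      1 + RCLike.re (g x) + t * ‖(f - g) h‖ := by
    rw [← map_add, e1, hc2, hfx, ← RCLike.ofReal_mul, map_add, map_add, RCLike.ofReal_re,
      RCLike.one_re]
  have e3 : t * ‖(f - g) h‖ ≤ t * (6 * t) := by nlinarith
  exact le_of_mul_le_mul_left e3 ht0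

end

end H76BP
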