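import Pool.Agent.J4.H76.BP.Space

/-!
# Perturbing admissible functionals
-/

open Filter Topology Metric Set
open scoped ENNReal BoundedContinuousFunction

namespace H76BP

section
variable {𝕜 : Type} [RCLike 𝕜] {H : Type} [NormedAddCommGroup H] [InnerProductSpace 𝕜 H]

/-- The generators on which a given generator depends. -/
def desc : Gam 𝕜 H → Set (Gam 𝕜 H)
  | .base k w => {.base k w}
  | .node n ψ c v => {.node n ψ c v} ∪ ⋃ j, desc (c j)

lemma desc_self (γ : Gam 𝕜 H) : γ ∈ desc γ := by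
  cases γ with
  | base k w => exact Set.mem_singleton _
  | node n ψ c v => exact Or.inl (Set.mem_singleton _)

lemma desc_finite (γ : Gam 𝕜 H) : (desc γ).Finite := by
  induction γ with
  | base k w => exact Set.finite_singleton _
  | node n ψ c v ih => exact (Set.finite_singleton _).union (Set.finite_iUnion ih)

lemma desc_child (γ : Gam 𝕜 H) {n : ℕ} (ψ : Fin n → (XX 𝕜 H →L[𝕜] 𝕜)) (c : Fin n → Gam 𝕜 H)
    (v : XX 𝕜 H →L[𝕜] 𝕜) (h : Gam.node n ψ c v ∈ desc γ) (j : Fin n) : c j ∈ desc γ := by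
  induction γ with
  | base k w =>
    have h1 : Gam.node n ψ c v = Gam.base k w := h
    cases h1
  | node n' ψ' c' v' ih =>
    rcases h with h | h
    · have h1 : Gam.node n ψ c v = Gam.node n' ψ' c' v' := h
      cases h1
      exact Or.inr (Set.mem_iUnion.2 ⟨j, desc_self _⟩)
    · obtain ⟨i, hi⟩ := Set.mem_iUnion.1 h
      exact Or.inr (Set.mem_iUnion.2 ⟨i, ih i hi⟩)

/-- Base functionals. -/
noncomputable def Bf (k : ℕ) (g : XX 𝕜 H →L[𝕜] 𝕜) (u : H) : Gam 𝕜 H → 𝕜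
  | .base j w => if j = k then bfun 𝕜 (sig k) g u w else 0
  | .node _ _ _ _ => 0

lemma Bf_mem (k : ℕ) {g : XX 𝕜 H →L[𝕜] 𝕜} {u : H} (hg : ‖g‖ ≤ 1) (hu : ‖u‖ ≤ 1) :
    Bf k g u ∈ Adm 𝕜 H :=
  ⟨⟨k, g, u, hg, hu, fun _ _ => rfl⟩, fun _ _ _ _ => Or.inl rfl⟩

/-- The functional `⟨h, ·⟩` in the `k`-th copy. -/
noncomputable def En (k : ℕ) (h : H) : Gam 𝕜 H → 𝕜 :=
  Bf k ((innerSL 𝕜 h).comp (WithLp.sndL 4 𝕜 𝕜 H)) h

lemma norm_comp_snd_le {h : H} (hh : ‖h‖ ≤ 1) :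
    ‖(innerSL 𝕜 h).comp (WithLp.sndL 4 𝕜 𝕜 H)‖ ≤ 1 := by
  apply ContinuousLinearMap.opNorm_le_bound _ zero_le_one
  intro x
  rw [one_mul]
  show ‖inner 𝕜 h x.snd‖ ≤ ‖x‖
  refine (norm_inner_le_norm _ _).trans ?_
  refine (mul_le_of_le_one_left (norm_nonneg _) hh).trans ?_
  exact WithLp.norm_snd_le _ x

lemma En_mem (k : ℕ) {h : H} (hh : ‖h‖ ≤ 1) : En (𝕜 := 𝕜) k h ∈ Adm 𝕜 H :=
  Bf_mem k (norm_comp_snd_le hh) hh

lemma En_base (k : ℕ) (h : H) (j : ℕ) (w : XX 𝕜 H) :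
    En (𝕜 := 𝕜) k h (.base j w) = if j = k then inner 𝕜 h w.snd else 0 := by
  show (if j = k then bfun 𝕜 (sig k) ((innerSL 𝕜 h).comp (WithLp.sndL 4 𝕜 𝕜 H)) h w else 0) = _
  congr 1
  unfold bfun
  show ((1 - sig k : ℝ) : 𝕜) * inner 𝕜 h w.snd + (sig k : 𝕜) * inner 𝕜 h w.snd = _
  rw [RCLike.ofReal_sub, RCLike.ofReal_one]
  ring

lemma En_node (k : ℕ) (h : H) (n : ℕ) (ψ : Fin n → (XX 𝕜 H →L[𝕜] 𝕜)) (c : Fin n → Gam 𝕜 H)
    (v : XX 𝕜 H →L[𝕜] 𝕜) : En (𝕜 := 𝕜) k h (.node n ψ c v) = 0 := rfl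

open Classical in
/-- The perturbed functional. -/
noncomputable def pf (A : Set (Gam 𝕜 H)) (b : Gam 𝕜 H → 𝕜) (k : ℕ) (h : H) (r q : ℝ) :
    Gam 𝕜 H → 𝕜 :=
  fun γ => if γ ∈ A ∨ level γ = 0 then (r : 𝕜) * b γ + (q : 𝕜) * En k h γ else 0

lemma pf_mem {A : Set (Gam 𝕜 H)}
    (hA : ∀ (n : ℕ) (ψ : Fin n → (XX 𝕜 H →L[𝕜] 𝕜)) (c : Fin n → Gam 𝕜 H)
      (v : XX 𝕜 H →L[𝕜] 𝕜), Gam.node n ψ c v ∈ A → ∀ j, c j ∈ A)
    {b : Gam 𝕜 H → 𝕜} (hb : b ∈ Adm 𝕜 H) {k : ℕ} {g : XX 𝕜 H →L[𝕜] 𝕜} {u : H} (hg : ‖g‖ ≤ 1)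
    (hbase : ∀ j w, b (.base j w) = if j = k then bfun 𝕜 (sig k) g u w else 0)
    {h : H} {r s : ℝ} (hr0 : 0 ≤ r) (hr1 : r ≤ 1) (hs : 0 ≤ s)
    (hu : ‖(r : 𝕜) • u + (s : 𝕜) • h‖ ≤ 1)
    (hnode : ∀ (n : ℕ) (ψ : Fin n → (XX 𝕜 H →L[𝕜] 𝕜)) (c : Fin n → Gam 𝕜 H)
      (v : XX 𝕜 H →L[𝕜] 𝕜), Gam.node n ψ c v ∈ A →
        r + s * sig k * ∑ j, ‖En (𝕜 := 𝕜) k h (c j)‖ * ‖ψ j‖ ≤ 1) :
    pf A b k h r (s * sig k) ∈ Adm 𝕜 H := by
  refine ⟨⟨k, (r : 𝕜) • g, (r : 𝕜) • u + (s : 𝕜) • h, ?_, hu, ?_⟩, ?_⟩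
  · rw [norm_smul, RCLike.norm_ofReal, abs_of_nonneg hr0]
    nlinarith [norm_nonneg g]
  · intro j w
    have h0 : level (Gam.base j w : Gam 𝕜 H) = 0 := rfl
    simp only [pf, h0, or_true, if_true]
    rw [hbase, En_base]
    split_ifs with hj
    · unfold bfun
      rw [inner_add_left, inner_smul_left, inner_smul_left, RCLike.conj_ofReal,
        RCLike.conj_ofReal, smul_apply, smul_eq_mul, RCLike.ofReal_mul]
      ring
    · simp
  · intro n ψ c v
    by_cases hmem : Gam.node n ψ c v ∈ A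
    · have hc : ∀ j, pf A b k h r (s * sig k) (c j) =
          (r : 𝕜) * b (c j) + ((s * sig k : ℝ) : 𝕜) * En k h (c j) := by
        intro j
        have := hA n ψ c v hmem j
        simp only [pf, this, true_or, if_true]
      have hn : pf A b k h r (s * sig k) (.node n ψ c v) = (r : 𝕜) * b (.node n ψ c v) := by
        simp only [pf, hmem, true_or, if_true]
        rw [En_node, mul_zero, add_zero]
      rcases hb.2 n ψ c v with h0 | ⟨h1, h2⟩
      · left; rw [hn, h0, mul_zero]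
      · right
        rw [hn]
        refine ⟨?_, ?_⟩
        · rw [norm_mul, RCLike.norm_ofReal, abs_of_nonneg hr0]
          nlinarith [norm_nonneg (b (.node n ψ c v))]
        · have e1 : ∑ j, pf A b k h r (s * sig k) (c j) • ψ j +
              ((r : 𝕜) * b (.node n ψ c v)) • v =
              (r : 𝕜) • (∑ j, b (c j) • ψ j + b (.node n ψ c v) • v) +
              ((s * sig k : ℝ) : 𝕜) • ∑ j, En (𝕜 := 𝕜) k h (c j) • ψ j := by
            have e0 : ∀ j, pf A b k h r (s * sig k) (c j) • ψ j =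
                (r : 𝕜) • (b (c j) • ψ j) +
                  ((s * sig k : ℝ) : 𝕜) • (En (𝕜 := 𝕜) k h (c j) • ψ j) := by
              intro j
              rw [hc]
              ext x
              simp only [smul_apply, add_apply, smul_eq_mul]
              ring
            rw [Finset.sum_congr rfl (fun j _ => e0 j), Finset.sum_add_distrib,
              ← Finset.smul_sum, ← Finset.smul_sum]
            ext x
            simp only [smul_apply, add_apply, smul_eq_mul]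
            ring
          rw [e1]
          refine (norm_add_le _ _).trans ?_
          rw [norm_smul, norm_smul, RCLike.norm_ofReal, RCLike.norm_ofReal, abs_of_nonneg hr0,
            abs_of_nonneg (mul_nonneg hs (sig_pos k).le)]
          have e2 : ‖∑ j, En (𝕜 := 𝕜) k h (c j) • ψ j‖ ≤
              ∑ j, ‖En (𝕜 := 𝕜) k h (c j)‖ * ‖ψ j‖ := by
            refine (norm_sum_le _ _).trans (Finset.sum_le_sum fun j _ => ?_)
            rw [norm_smul]
          have e3 := hnode n ψ c v hmem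
          have e4 := mul_le_mul_of_nonneg_left e2 (mul_nonneg hs (sig_pos k).le)
          have e5 := mul_le_mul_of_nonneg_left h2 hr0
          linarith
    · left
      have h0 : level (Gam.node n ψ c v) ≠ 0 := Nat.succ_ne_zero _
      simp only [pf, hmem, h0, or_self, if_false]

/-- Evaluation at the perturbed functional. -/
lemma ev_pf {A : Set (Gam 𝕜 H)} {b : Gam 𝕜 H → 𝕜} {k : ℕ} {h : H} (hh : ‖h‖ ≤ 1) {r q : ℝ}
    (h1 : pf A b k h r q ∈ Adm 𝕜 H) (h2 : pf A b k h 1 0 ∈ Adm 𝕜 H) (y : YY 𝕜 H) :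
    ev _ h1 y = (r : 𝕜) * ev _ h2 y + (q : 𝕜) * ev _ (En_mem k hh) y := by
  have key : ev _ h1 = (r : 𝕜) • ev _ h2 + (q : 𝕜) • ev _ (En_mem (𝕜 := 𝕜) k hh) := by
    ext y
    refine YY_induction (p := fun y => ev _ h1 y =
      ((r : 𝕜) • ev _ h2 + (q : 𝕜) • ev _ (En_mem (𝕜 := 𝕜) k hh)) y) ?_ ?_ ?_ ?_ ?_ y
    · intro γ
      simp only [add_apply, smul_apply, smul_eq_mul, ev_ge]
      by_cases hγ : γ ∈ A ∨ level γ = 0
      · simp only [pf, hγ, if_true]
        simp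
      · simp only [pf, hγ, if_false]
        have : En (𝕜 := 𝕜) k h γ = 0 := by
          cases γ with
          | base j w => exact absurd (Or.inr rfl) hγ
          | node n ψ c v => rfl
        rw [this]
        simp
    · simp
    · intro x y hx hy
      rw [map_add, hx, hy, map_add]
    · intro a x hx
      rw [map_smul, hx, map_smul]
    · intro y hy
      set L1 := ev _ h1
      set L2 := (r : 𝕜) • ev _ h2 + (q : 𝕜) • ev _ (En_mem (𝕜 := 𝕜) k hh)
      have h3 : IsClosed {z | L1 z = L2 z} := isClosed_eq L1.continuous L2.continuous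
      have h4 : y ∈ closure {z | L1 z = L2 z} := by
        rw [Metric.mem_closure_iff]
        intro δ hδ
        obtain ⟨x, hx, hyx⟩ := hy δ hδ
        exact ⟨x, hx, by rw [dist_eq_norm]; exact hyx⟩
      rw [h3.closure_eq] at h4
      exact h4
  rw [key]
  rfl

/-- An element of the range space essentially depends on finitely many generators. -/
lemma finite_dep (y : YY 𝕜 H) : ∀ δ > 0, ∃ F : Set (Gam 𝕜 H), F.Finite ∧
    ∀ (b b' : Gam 𝕜 H → 𝕜) (hb : b ∈ Adm 𝕜 H) (hb' : b' ∈ Adm 𝕜 H), (∀ γ ∈ F, b' γ = b γ) →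
      ‖ev b' hb' y - ev b hb y‖ ≤ δ := by
  refine YY_induction (p := fun y => ∀ δ > 0, ∃ F : Set (Gam 𝕜 H), F.Finite ∧
    ∀ (b b' : Gam 𝕜 H → 𝕜) (hb : b ∈ Adm 𝕜 H) (hb' : b' ∈ Adm 𝕜 H), (∀ γ ∈ F, b' γ = b γ) →
      ‖ev b' hb' y - ev b hb y‖ ≤ δ) ?_ ?_ ?_ ?_ ?_ y
  · intro γ δ hδ
    refine ⟨{γ}, Set.finite_singleton _, ?_⟩
    intro b b' hb hb' h
    rw [ev_ge, ev_ge, h γ rfl, sub_self, norm_zero]
    exact hδ.le
  · intro δ hδ
    refine ⟨∅, Set.finite_empty, ?_⟩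
    intro b b' hb hb' _
    simp [hδ.le]
  · intro x y hx hy δ hδ
    obtain ⟨F1, hF1, h1⟩ := hx (δ / 2) (by positivity)
    obtain ⟨F2, hF2, h2⟩ := hy (δ / 2) (by positivity)
    refine ⟨F1 ∪ F2, hF1.union hF2, ?_⟩
    intro b b' hb hb' h
    have e1 := h1 b b' hb hb' fun γ hγ => h γ (Or.inl hγ)
    have e2 := h2 b b' hb hb' fun γ hγ => h γ (Or.inr hγ)
    have e3 : ev b' hb' (x + y) - ev b hb (x + y) =
        (ev b' hb' x - ev b hb x) + (ev b' hb' y - ev b hb y) := by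
      rw [map_add, map_add]; ring
    rw [e3]
    refine (norm_add_le _ _).trans ?_
    linarith
  · intro a x hx δ hδ
    obtain ⟨F, hF, h1⟩ := hx (δ / (‖a‖ + 1)) (by positivity)
    refine ⟨F, hF, ?_⟩
    intro b b' hb hb' h
    have e1 := h1 b b' hb hb' h
    rw [map_smul, map_smul, ← smul_sub, norm_smul]
    rw [le_div_iff₀ (by positivity)] at e1
    nlinarith [norm_nonneg (ev b' hb' x - ev b hb x), norm_nonneg a]
  · intro y hy δ hδ
    obtain ⟨x, hx, hyx⟩ := hy (δ / 3) (by positivity)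
    obtain ⟨F, hF, h1⟩ := hx (δ / 3) (by positivity)
    refine ⟨F, hF, ?_⟩
    intro b b' hb hb' h
    have e1 := h1 b b' hb hb' h
    have e2 : ev b' hb' y - ev b hb y = ev b' hb' (y - x) + (ev b' hb' x - ev b hb x) -
        ev b hb (y - x) := by
      rw [map_sub, map_sub]; ring
    rw [e2]
    refine (norm_sub_le _ _).trans ?_
    have e3 := norm_add_le (ev b' hb' (y - x)) (ev b' hb' x - ev b hb x)
    have e4 := ev_le b' hb' (y - x)
    have e5 := ev_le b hb (y - x)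
    linarith

/-- An orthonormal sequence is weakly null. -/
lemma inner_tendsto {e : ℕ → H} (he : Orthonormal 𝕜 e) (x : H) :
    Tendsto (fun n => ‖inner 𝕜 (e n) x‖) atTop (𝓝 0) := by
  have h1 := (he.inner_products_summable x).tendsto_atTop_zero
  have h2 : Tendsto (fun n => Real.sqrt (‖inner 𝕜 (e n) x‖ ^ 2)) atTop (𝓝 (Real.sqrt 0)) :=
    h1.sqrt
  rw [Real.sqrt_zero] at h2
  refine h2.congr fun n => ?_
  rw [Real.sqrt_sq (norm_nonneg _)]

lemma En_tendsto {e : ℕ → H} (he : Orthonormal 𝕜 e) (k : ℕ) (γ : Gam 𝕜 H) :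
    Tendsto (fun n => ‖En (𝕜 := 𝕜) k (e n) γ‖) atTop (𝓝 0) := by
  cases γ with
  | base j w =>
    by_cases hj : j = k
    · have : (fun n => ‖En (𝕜 := 𝕜) k (e n) (Gam.base j w)‖) =
          fun n => ‖inner 𝕜 (e n) w.snd‖ := by
        funext n
        rw [En_base, if_pos hj]
      rw [this]
      exact inner_tendsto he _
    · have : (fun n => ‖En (𝕜 := 𝕜) k (e n) (Gam.base j w)‖) = fun n => 0 := by
        funext n
        rw [En_base, if_neg hj, norm_zero]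
      rw [this]
      exact tendsto_const_nhds
  | node n ψ c v =>
    have : (fun m => ‖En (𝕜 := 𝕜) k (e m) (Gam.node n ψ c v)‖) = fun m => 0 := by
      funext m
      rw [En_node, norm_zero]
    rw [this]
    exact tendsto_const_nhds

lemma ev_En_tendsto {e : ℕ → H} (he : Orthonormal 𝕜 e) (k : ℕ) (y : YY 𝕜 H) :
    Tendsto (fun n => ‖ev _ (En_mem (𝕜 := 𝕜) k (he.norm_eq_one n).le) y‖) atTop (𝓝 0) := by
  refine YY_induction (p := fun y => Tendsto
    (fun n => ‖ev _ (En_mem (𝕜 := 𝕜) k (he.norm_eq_one n).le) y‖) atTop (𝓝 0)) ?_ ?_ ?_ ?_ ?_ y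
  · intro γ
    exact En_tendsto he k γ
  · simp
  · intro x y hx hy
    have h1 := hx.add hy
    rw [add_zero] at h1
    refine squeeze_zero (fun n => norm_nonneg _) (fun n => ?_) h1
    rw [map_add]
    exact norm_add_le _ _
  · intro a x hx
    have h1 := hx.const_mul ‖a‖
    rw [mul_zero] at h1
    refine h1.congr fun n => ?_
    rw [map_smul, norm_smul]
  · intro y hy
    rw [Metric.tendsto_atTop]
    intro δ hδ
    obtain ⟨x, hx, hyx⟩ := hy (δ / 2) (by positivity)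
    obtain ⟨N, hN⟩ := (Metric.tendsto_atTop.1 hx) (δ / 2) (by positivity)
    refine ⟨N, fun n hn => ?_⟩
    have h1 := hN n hn
    rw [Real.dist_eq, sub_zero, abs_of_nonneg (norm_nonneg _)] at h1 ⊢
    have h2 : ev _ (En_mem (𝕜 := 𝕜) k (he.norm_eq_one n).le) y =
        ev _ (En_mem (𝕜 := 𝕜) k (he.norm_eq_one n).le) x +
        ev _ (En_mem (𝕜 := 𝕜) k (he.norm_eq_one n).le) (y - x) := by
      rw [map_sub]; ring
    rw [h2]
    refine lt_of_le_of_lt (norm_add_le _ _) ?_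
    have h3 := ev_le _ (En_mem (𝕜 := 𝕜) k (he.norm_eq_one n).le) (y - x)
    linarith

end

end H76BP
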