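import Pool.Agent.J4.H76.BP.PK
import Pool.Agent.J4.H76.BP.Pert

/-!
# The pointwise BPB property fails for the pair
-/

open Filter Topology Metric Set
open scoped ENNReal BoundedContinuousFunction

namespace H76BP

section
variable {𝕜 : Type} [RCLike 𝕜] {H : Type} [NormedAddCommGroup H] [InnerProductSpace 𝕜 H]

lemma eq_of_ev {y z : YY 𝕜 H}
    (h : ∀ (b : Gam 𝕜 H → 𝕜) (hb : b ∈ Adm 𝕜 H), ev b hb y = ev b hb z) : y = z := by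
  have h1 : ‖y - z‖ ≤ 0 := norm_le_of_ev le_rfl fun b hb => by
    rw [map_sub, h b hb, sub_self, norm_zero]
  exact sub_eq_zero.1 (norm_le_zero_iff.1 h1)

lemma clm_ext_gen {L1 L2 : YY 𝕜 H →L[𝕜] 𝕜} (h : ∀ γ, L1 (ge γ) = L2 (ge γ)) : L1 = L2 := by
  ext y
  refine YY_induction (p := fun y => L1 y = L2 y) h ?_ ?_ ?_ ?_ y
  · simp
  · intro x y hx hy
    rw [map_add, hx, hy, map_add]
  · intro a x hx
    rw [map_smul, hx, map_smul]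
  · intro y hy
    have h3 : IsClosed {z | L1 z = L2 z} := isClosed_eq L1.continuous L2.continuous
    have h4 : y ∈ closure {z | L1 z = L2 z} := by
      rw [Metric.mem_closure_iff]
      intro δ hδ
      obtain ⟨x, hx, hyx⟩ := hy δ hδ
      exact ⟨x, hx, by rw [dist_eq_norm]; exact hyx⟩
    rw [h3.closure_eq] at h4
    exact h4

lemma ev_rot {b : Gam 𝕜 H → 𝕜} (hb : b ∈ Adm 𝕜 H) {a : 𝕜} (ha : ‖a‖ = 1) (y : YY 𝕜 H) :
    ev _ (adm_smul hb ha) y = a * ev b hb y := by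
  have : ev _ (adm_smul hb ha) = a • ev b hb := clm_ext_gen fun γ => rfl
  rw [this]
  rfl

lemma ev_congr {b b' : Gam 𝕜 H → 𝕜} (hb : b ∈ Adm 𝕜 H) (hb' : b' ∈ Adm 𝕜 H) (h : b = b')
    (y : YY 𝕜 H) : ev b hb y = ev b' hb' y := by
  subst h
  rfl

/-- The operator of `X` onto the `k`-th copy. -/
noncomputable def Tk (k : ℕ) : XX 𝕜 H →L[𝕜] YY 𝕜 H :=
  LinearMap.mkContinuous
    { toFun := fun x => ge (.base k x)
      map_add' := fun x y => by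
        apply eq_of_ev
        intro b hb
        rw [map_add, ev_ge, ev_ge, ev_ge]
        obtain ⟨k', g, u, -, -, h⟩ := hb.1
        rw [h, h, h]
        split_ifs
        · unfold bfun
          rw [map_add, WithLp.add_snd, inner_add_right]
          ring
        · simp
      map_smul' := fun a x => by
        apply eq_of_ev
        intro b hb
        rw [RingHom.id_apply, map_smul, ev_ge, ev_ge, smul_eq_mul]
        obtain ⟨k', g, u, -, -, h⟩ := hb.1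
        rw [h, h]
        split_ifs
        · unfold bfun
          rw [map_smul, WithLp.smul_snd, inner_smul_right, smul_eq_mul]
          ring
        · simp } 1
    (fun x => by
      rw [one_mul]
      apply norm_le_of_ev (norm_nonneg x)
      intro b hb
      exact adm_bound hb _)

lemma Tk_apply (k : ℕ) (x : XX 𝕜 H) : Tk k x = ge (.base k x) := rfl

lemma Tk_norm_le (k : ℕ) : ‖(Tk k : XX 𝕜 H →L[𝕜] YY 𝕜 H)‖ ≤ 1 :=
  LinearMap.mkContinuous_norm_le _ zero_le_one _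

lemma norm_inrL (h : H) : ‖(inrL h : XX 𝕜 H)‖ = ‖h‖ := WithLp.norm_toLp_snd 4 𝕜 H h

lemma Tk_norm (k : ℕ) {h : H} (hh : ‖h‖ = 1) : ‖(Tk k : XX 𝕜 H →L[𝕜] YY 𝕜 H)‖ = 1 := by
  apply le_antisymm (Tk_norm_le k)
  have h1 := (Tk k : XX 𝕜 H →L[𝕜] YY 𝕜 H).le_opNorm (inrL h)
  rw [norm_inrL, hh, mul_one] at h1
  refine le_trans ?_ h1
  have h2 := ev_le _ (En_mem (𝕜 := 𝕜) k hh.le) (Tk k (inrL h))
  refine le_trans ?_ h2
  rw [Tk_apply, ev_ge, En_base, if_pos rfl]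
  show 1 ≤ ‖inner 𝕜 h h‖
  rw [inner_self_eq_norm_sq_to_K, hh]
  simp

variable (𝕜 H) in
/-- The point `(1, 0)`. -/
noncomputable def x0 : XX 𝕜 H := WithLp.toLp 4 ((1 : 𝕜), (0 : H))

omit [InnerProductSpace 𝕜 H] in
lemma norm_x0 : ‖x0 𝕜 H‖ = 1 := by
  have := WithLp.norm_toLp_fst 4 𝕜 H (1 : 𝕜)
  rw [norm_one] at this
  exact this

lemma norm_fstL_le : ‖WithLp.fstL 4 𝕜 𝕜 H‖ ≤ 1 := by
  apply ContinuousLinearMap.opNorm_le_bound _ zero_le_one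
  intro x
  rw [one_mul]
  exact WithLp.norm_fst_le _ x

lemma Tk_x0 (k : ℕ) : 1 - sig k ≤ ‖Tk k (x0 𝕜 H)‖ := by
  have h1 : Bf k (WithLp.fstL 4 𝕜 𝕜 H) (0 : H) ∈ Adm 𝕜 H :=
    Bf_mem k norm_fstL_le (by simp)
  have h2 := ev_le _ h1 (Tk k (x0 𝕜 H))
  refine le_trans ?_ h2
  rw [Tk_apply, ev_ge]
  show 1 - sig k ≤ ‖if k = k then bfun 𝕜 (sig k) (WithLp.fstL 4 𝕜 𝕜 H) (0 : H) (x0 𝕜 H) else 0‖
  rw [if_pos rfl]
  unfold bfun
  have h3 : WithLp.fstL 4 𝕜 𝕜 H (x0 𝕜 H) = 1 := rfl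
  rw [h3, inner_zero_left, mul_zero, add_zero, mul_one, RCLike.norm_ofReal]
  exact le_abs_self _

lemma unorm_le {u h : H} {s : ℝ} (hu : ‖u‖ ≤ 1) (hh : ‖h‖ = 1) (hs0 : 0 < s) (hs1 : s ≤ 1 / 16)
    (e1 : ‖inner 𝕜 h u‖ ≤ s / 4) : ‖((1 - s ^ 2 : ℝ) : 𝕜) • u + (s : 𝕜) • h‖ ≤ 1 := by
  have h1 := norm_add_sq (𝕜 := 𝕜) (((1 - s ^ 2 : ℝ) : 𝕜) • u) ((s : 𝕜) • h)
  have hs2 : s ^ 2 ≤ 1 / 256 := by nlinarith
  have hr0 : 0 ≤ 1 - s ^ 2 := by linarith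
  have h2 : ‖((1 - s ^ 2 : ℝ) : 𝕜) • u‖ ≤ 1 - s ^ 2 := by
    rw [norm_smul, RCLike.norm_ofReal, abs_of_nonneg hr0]
    exact mul_le_of_le_one_right hr0 hu
  have h3 : ‖(s : 𝕜) • h‖ = s := by
    rw [norm_smul, RCLike.norm_ofReal, abs_of_pos hs0, hh, mul_one]
  have h4 : RCLike.re (inner 𝕜 (((1 - s ^ 2 : ℝ) : 𝕜) • u) ((s : 𝕜) • h)) ≤ s * (s / 4) := by
    refine (RCLike.re_le_norm _).trans ?_
    rw [inner_smul_left, inner_smul_right, norm_mul, norm_mul, RCLike.norm_conj,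
      RCLike.norm_ofReal, RCLike.norm_ofReal, abs_of_nonneg hr0, abs_of_pos hs0,
      ← inner_conj_symm, RCLike.norm_conj]
    have h6 : s * ‖inner 𝕜 h u‖ ≤ s * (s / 4) := mul_le_mul_of_nonneg_left e1 hs0.le
    have h5 : 0 ≤ s * ‖inner 𝕜 h u‖ := by positivity
    have h7 : (1 - s ^ 2) * (s * ‖inner 𝕜 h u‖) ≤ 1 * (s * ‖inner 𝕜 h u‖) :=
      mul_le_mul_of_nonneg_right (by nlinarith [sq_nonneg s]) h5
    linarith
  rw [h3] at h1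
  have h6 : ‖((1 - s ^ 2 : ℝ) : 𝕜) • u‖ ^ 2 ≤ (1 - s ^ 2) ^ 2 :=
    pow_le_pow_left₀ (norm_nonneg _) h2 2
  have h8 : (1 - s ^ 2) ^ 2 + 2 * (s * (s / 4)) + s ^ 2 ≤ 1 := by
    have h9 : 0 ≤ s ^ 2 := sq_nonneg s
    have h10 : (s ^ 2) * (s ^ 2) ≤ (1 / 256) * s ^ 2 := mul_le_mul_of_nonneg_right hs2 h9
    have h11 : (1 - s ^ 2) ^ 2 + 2 * (s * (s / 4)) + s ^ 2 =
        1 - s ^ 2 / 2 + s ^ 2 * s ^ 2 := by ring
    rw [h11]
    linarith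
  have h7 : ‖((1 - s ^ 2 : ℝ) : 𝕜) • u + (s : 𝕜) • h‖ ^ 2 ≤ 1 := by
    rw [h1]
    linarith
  exact (sq_le_one_iff₀ (norm_nonneg _)).1 h7

lemma znorm_le {h : H} (hh : ‖h‖ = 1) {t : ℝ} (ht0 : 0 < t) :
    ‖x0 𝕜 H + (t : 𝕜) • inrL h‖ ≤ 1 + t ^ 4 / 4 := by
  set z : XX 𝕜 H := x0 𝕜 H + (t : 𝕜) • inrL h with hz
  have h1 := norm_pow4 z
  have h2 : z.fst = 1 := by
    show (1 : 𝕜) + (t : 𝕜) • (0 : 𝕜) = 1
    simp
  have h3 : z.snd = (t : 𝕜) • h := by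
    show (0 : H) + (t : 𝕜) • h = (t : 𝕜) • h
    simp
  rw [h2, h3, norm_one, norm_smul, RCLike.norm_ofReal, abs_of_pos ht0, hh, mul_one] at h1
  by_contra hcon
  push Not at hcon
  have h4 : (1 + t ^ 4 / 4) ^ 4 < ‖z‖ ^ 4 := pow_lt_pow_left₀ hcon (by positivity) (by norm_num)
  have h6 : 0 ≤ t ^ 4 := by positivity
  have h5 : 1 + t ^ 4 ≤ (1 + t ^ 4 / 4) ^ 4 := by
    have := one_add_mul_le_pow (a := t ^ 4 / 4) (by linarith) 4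
    push_cast at this
    linarith
  linarith

lemma numeric {σ s t θ p1 p2 p3 p4 : ℝ} (hσ0 : 0 < σ) (hσ1 : σ ≤ 1 / 2) (hθ : θ = σ ^ 4 / 2048)
    (ht : t = σ / 4) (hs : s = σ ^ 2 / 16) (h1 : 1 - 2 * θ ≤ p1) (r2 : |p2| ≤ θ)
    (r3 : |p3| ≤ θ) (r4 : 1 / 2 ≤ p4)
    (hup : (1 - s ^ 2) * (p1 + t * p2) + (s * σ) * (p3 + t * p4) ≤ 1 + t ^ 4 / 4) : False := by
  have hσ2 : σ ^ 2 ≤ 1 := pow_le_one₀ hσ0.le (by linarith)
  have hσ4 : 0 < σ ^ 4 := by positivity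
  have hθ0 : 0 < θ := by rw [hθ]; positivity
  have ht0 : 0 < t := by rw [ht]; positivity
  have ht1 : t ≤ 1 := by rw [ht]; linarith
  have hs0 : 0 < s := by rw [hs]; positivity
  have hs1 : s ≤ 1 := by rw [hs]; linarith
  have hs2 : 0 ≤ s ^ 2 := sq_nonneg s
  have hs2' : s ^ 2 ≤ 1 := pow_le_one₀ hs0.le hs1
  have q1 : (1 - s ^ 2) * (1 - 2 * θ) ≤ (1 - s ^ 2) * p1 :=
    mul_le_mul_of_nonneg_left h1 (by linarith)
  have q1' : 1 - s ^ 2 - 2 * θ ≤ (1 - s ^ 2) * (1 - 2 * θ) := by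
    have := mul_nonneg hs2 hθ0.le
    linarith
  have q2 : -θ ≤ (1 - s ^ 2) * (t * p2) := by
    have h1 : |(1 - s ^ 2) * (t * p2)| ≤ θ := by
      rw [abs_mul, abs_mul, abs_of_nonneg (by linarith : (0 : ℝ) ≤ 1 - s ^ 2), abs_of_pos ht0]
      have h2 : t * |p2| ≤ 1 * θ := mul_le_mul ht1 r2 (abs_nonneg _) zero_le_one
      have h3 : 0 ≤ t * |p2| := by positivity
      have h4 : (1 - s ^ 2) * (t * |p2|) ≤ 1 * (t * |p2|) :=
        mul_le_mul_of_nonneg_right (by linarith) h3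
      linarith
    exact (abs_le.1 h1).1
  have hsσ : 0 < s * σ := by positivity
  have hsσ1 : s * σ ≤ 1 := by
    have : s * σ ≤ 1 * 1 := mul_le_mul hs1 (by linarith) hσ0.le zero_le_one
    linarith
  have q3 : -θ ≤ (s * σ) * p3 := by
    have h1 : |(s * σ) * p3| ≤ θ := by
      rw [abs_mul, abs_of_pos hsσ]
      have h2 : s * σ * |p3| ≤ 1 * θ := mul_le_mul hsσ1 r3 (abs_nonneg _) zero_le_one
      linarith
    exact (abs_le.1 h1).1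
  have q4 : (s * σ) * (t * (1 / 2)) ≤ (s * σ) * (t * p4) :=
    mul_le_mul_of_nonneg_left (mul_le_mul_of_nonneg_left r4 ht0.le) hsσ.le
  have hfin : 1 - s ^ 2 - 4 * θ + (s * σ) * (t * (1 / 2)) ≤ 1 + t ^ 4 / 4 := by
    linarith
  rw [hs, ht, hθ] at hfin
  have e1 : (σ ^ 2 / 16) ^ 2 = σ ^ 4 / 256 := by ring
  have e2 : σ ^ 2 / 16 * σ * (σ / 4 * (1 / 2)) = σ ^ 4 / 128 := by ring
  have e3 : (σ / 4) ^ 4 / 4 = σ ^ 4 / 1024 := by ring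
  rw [e1, e2, e3] at hfin
  linarith

lemma E2_event {A : Set (Gam 𝕜 H)} (hAfin : A.Finite) {e : ℕ → H} (horth : Orthonormal 𝕜 e)
    (k : ℕ) {s σ : ℝ} (hs0 : 0 < s) (hσ0 : 0 < σ) :
    ∀ᶠ n in atTop, ∀ γ ∈ A, ∀ (m : ℕ) (ψ : Fin m → (XX 𝕜 H →L[𝕜] 𝕜))
      (c : Fin m → Gam 𝕜 H) (v : XX 𝕜 H →L[𝕜] 𝕜), γ = Gam.node m ψ c v →
      (1 - s ^ 2) + s * σ * ∑ j, ‖En (𝕜 := 𝕜) k (e n) (c j)‖ * ‖ψ j‖ ≤ 1 := by
  rw [Filter.eventually_all_finite hAfin]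
  intro γ _
  cases γ with
  | base j w => exact Eventually.of_forall fun n m ψ c v h => by cases h
  | node m ψ c v =>
    have h1 : Tendsto (fun n => ∑ j, ‖En (𝕜 := 𝕜) k (e n) (c j)‖ * ‖ψ j‖) atTop (𝓝 0) := by
      have h2 : Tendsto (fun n => ∑ j, ‖En (𝕜 := 𝕜) k (e n) (c j)‖ * ‖ψ j‖) atTop
          (𝓝 (∑ j : Fin m, 0 * ‖ψ j‖)) :=
        tendsto_finsetSum _ fun j _ => (En_tendsto horth k (c j)).mul_const _
      simpa using h2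
    have h3 := h1.eventually_le_const (by positivity : (0 : ℝ) < s / σ)
    filter_upwards [h3] with n hn
    intro m' ψ' c' v' heq
    cases heq
    have h4 : s * σ * ∑ j, ‖En (𝕜 := 𝕜) k (e n) (c j)‖ * ‖ψ j‖ ≤ s * σ * (s / σ) :=
      mul_le_mul_of_nonneg_left hn (by positivity)
    have h5 : s * σ * (s / σ) = s ^ 2 := by field_simp
    linarith

lemma E4_event [CompleteSpace H] {e : ℕ → H} (horth : Orthonormal 𝕜 e)
    (L : XX 𝕜 H →L[𝕜] 𝕜) {θ : ℝ} (hθ0 : 0 < θ) : ∀ᶠ n in atTop, ‖L (inrL (e n))‖ ≤ θ := by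
  set r' : H := (InnerProductSpace.toDual 𝕜 H).symm (L.comp inrL) with hr'
  have h1 : ∀ n, ‖L (inrL (e n))‖ = ‖inner 𝕜 (e n) r'‖ := by
    intro n
    have : L (inrL (e n)) = inner 𝕜 r' (e n) := by
      rw [hr', InnerProductSpace.toDual_symm_apply]
      rfl
    rw [this, ← inner_conj_symm, RCLike.norm_conj]
  simp only [h1]
  exact (inner_tendsto horth r').eventually_le_const hθ0

/-- The functional nearly norming the value at the point `(1, 0)` belongs to the `k`-th copy. -/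
lemma index_eq {k k' : ℕ} {S D : XX 𝕜 H →L[𝕜] YY 𝕜 H} (hSD : ∀ x, S x = Tk k x + D x)
    (hD : ‖D‖ < 1 / 2) {b : Gam 𝕜 H → 𝕜} (hb : b ∈ Adm 𝕜 H) {g : XX 𝕜 H →L[𝕜] 𝕜} {u : H}
    (hbase : ∀ j w, b (.base j w) = if j = k' then bfun 𝕜 (sig k') g u w else 0)
    (hre : 1 / 2 < RCLike.re (ev b hb (S (x0 𝕜 H)))) : k' = k := by
  by_contra hne
  have h1 : ev b hb (Tk k (x0 𝕜 H)) = 0 := by
    rw [Tk_apply, ev_ge, hbase, if_neg (fun h => hne h.symm)]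
  have h2 : ev b hb (S (x0 𝕜 H)) = ev b hb (D (x0 𝕜 H)) := by
    rw [hSD, map_add, h1, zero_add]
  have h3 : ‖ev b hb (S (x0 𝕜 H))‖ ≤ 1 / 2 := by
    rw [h2]
    refine (ev_le _ _ _).trans ((D.le_opNorm _).trans ?_)
    rw [norm_x0, mul_one]
    exact hD.le
  have h4 := (RCLike.re_le_norm (ev b hb (S (x0 𝕜 H)))).trans h3
  linarith

lemma r4_bound {k : ℕ} {S D : XX 𝕜 H →L[𝕜] YY 𝕜 H} (hSD : ∀ x, S x = Tk k x + D x)
    (hD : ‖D‖ < 1 / 2) {h : H} (hh : ‖h‖ = 1) (hE : En (𝕜 := 𝕜) k h ∈ Adm 𝕜 H) :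
    1 / 2 ≤ RCLike.re (ev _ hE (S (inrL h))) := by
  have h1 : ev _ hE (Tk k (inrL h)) = 1 := by
    rw [Tk_apply, ev_ge, En_base, if_pos rfl]
    show inner 𝕜 h h = 1
    rw [inner_self_eq_norm_sq_to_K, hh]
    simp
  have h2 : ev _ hE (S (inrL h)) = 1 + ev _ hE (D (inrL h)) := by
    rw [hSD, map_add, h1]
  have h3 : ‖ev _ hE (D (inrL h))‖ ≤ 1 / 2 := by
    refine (ev_le _ _ _).trans ((D.le_opNorm _).trans ?_)
    rw [norm_inrL, hh, mul_one]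
    exact hD.le
  have h4 := (RCLike.abs_re_le_norm (ev _ hE (D (inrL h)))).trans h3
  rw [h2, map_add, RCLike.one_re]
  have h5 := (abs_le.1 h4).1
  linarith

lemma fail_core [CompleteSpace H] (e : HilbertBasis ℕ 𝕜 H) (k : ℕ)
    (S D : XX 𝕜 H →L[𝕜] YY 𝕜 H) (hSD : ∀ x, S x = Tk k x + D x) (hS : ‖S‖ = 1)
    (hSx : ‖S (x0 𝕜 H)‖ = 1) (hD : ‖D‖ < 1 / 2) : False := by
  set σ := sig k with hσ
  have hσ0 : 0 < σ := sig_pos k
  have hσ1 : σ ≤ 1 / 2 := sig_le k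
  have hσ4 : σ ^ 4 ≤ 1 := pow_le_one₀ hσ0.le (by linarith)
  have hσ4' : 0 < σ ^ 4 := by positivity
  set θ : ℝ := σ ^ 4 / 2048 with hθ
  have hθ0 : 0 < θ := by positivity
  have hθ1 : θ ≤ 1 / 2048 := by rw [hθ]; linarith
  obtain ⟨b0, hb0, hb0v⟩ := exists_ev_gt (C := 1 - θ) (y := S (x0 𝕜 H)) (by linarith)
    (by rw [hSx]; linarith)
  obtain ⟨a, ha1, ha2⟩ := exists_rot (ev b0 hb0 (S (x0 𝕜 H)))
  have hb := adm_smul hb0 ha1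
  have hbv : ev _ hb (S (x0 𝕜 H)) = (‖ev b0 hb0 (S (x0 𝕜 H))‖ : 𝕜) := by
    rw [← ha2]; exact ev_rot hb0 ha1 _
  generalize (fun γ => a * b0 γ) = b at hb hbv
  have hbre : 1 - θ < RCLike.re (ev b hb (S (x0 𝕜 H))) := by
    rw [hbv, RCLike.ofReal_re]; exact hb0v
  obtain ⟨k', g, u, hg, hu, hbase⟩ := hb.1
  have hk : k' = k := index_eq hSD hD hb hbase (by linarith)
  subst hk
  -- finitely many generators
  obtain ⟨F, hF, hdep⟩ := finite_dep (S (x0 𝕜 H)) θ hθ0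
  set A : Set (Gam 𝕜 H) := ⋃ γ ∈ F, desc γ with hA
  have hAfin : A.Finite := hF.biUnion fun γ _ => desc_finite γ
  have hAch : ∀ (n : ℕ) (ψ : Fin n → (XX 𝕜 H →L[𝕜] 𝕜)) (c : Fin n → Gam 𝕜 H)
      (v : XX 𝕜 H →L[𝕜] 𝕜), Gam.node n ψ c v ∈ A → ∀ j, c j ∈ A := by
    intro n ψ c v hmem j
    obtain ⟨γ, hγ, h1⟩ := Set.mem_iUnion₂.1 hmem
    exact Set.mem_iUnion₂.2 ⟨γ, hγ, desc_child γ ψ c v h1 j⟩
  have hbA : ∀ h : H, pf A b k' h 1 0 ∈ Adm 𝕜 H := by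
    intro h
    have := pf_mem (A := A) hAch hb (k := k') hg hbase (h := h) (r := 1) (s := 0) zero_le_one
      le_rfl le_rfl (by simpa using hu) (fun n ψ c v _ => by simp)
    rwa [zero_mul] at this
  have hbAeq : ∀ h : H, pf A b k' h 1 0 = pf A b k' (0 : H) 1 0 := by
    intro h
    funext γ
    simp [pf]
  have hbA0 := hbA 0
  have hbAF : ∀ γ ∈ F, pf A b k' (0 : H) 1 0 γ = b γ := by
    intro γ hγ
    have hγA : γ ∈ A := Set.mem_iUnion₂.2 ⟨γ, hγ, desc_self γ⟩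
    simp [pf, hγA]
  generalize pf A b k' (0 : H) 1 0 = bA at hbAeq hbA0 hbAF
  have hbAv : 1 - 2 * θ ≤ RCLike.re (ev bA hbA0 (S (x0 𝕜 H))) := by
    have h1 := hdep b bA hb hbA0 hbAF
    have h2 := RCLike.abs_re_le_norm (ev bA hbA0 (S (x0 𝕜 H)) - ev b hb (S (x0 𝕜 H)))
    rw [map_sub] at h2
    have h3 := (abs_le.1 (h2.trans h1)).1
    linarith
  -- parameters
  set t : ℝ := σ / 4 with ht
  set s : ℝ := σ ^ 2 / 16 with hs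
  have ht0 : 0 < t := by positivity
  have hs0 : 0 < s := by positivity
  have hs1 : s ≤ 1 / 16 := by
    rw [hs]
    have : σ ^ 2 ≤ 1 := pow_le_one₀ hσ0.le (by linarith)
    linarith
  have hss : s ^ 2 ≤ 1 := pow_le_one₀ hs0.le (by linarith)
  have horth := e.orthonormal
  -- eventual conditions
  have E1 : ∀ᶠ n in atTop, ‖inner 𝕜 (e n) u‖ ≤ s / 4 :=
    (inner_tendsto horth u).eventually_le_const (by positivity)
  have E2 := E2_event (𝕜 := 𝕜) hAfin horth k' hs0 hσ0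
  have E3 : ∀ᶠ n in atTop,
      ‖ev _ (En_mem (𝕜 := 𝕜) k' (horth.norm_eq_one n).le) (S (x0 𝕜 H))‖ ≤ θ :=
    (ev_En_tendsto horth k' (S (x0 𝕜 H))).eventually_le_const hθ0
  have E4 : ∀ᶠ n in atTop, ‖((ev bA hbA0).comp S) (inrL (e n))‖ ≤ θ := E4_event horth _ hθ0
  obtain ⟨h, hn1, hE, e1, e2, e3', e4⟩ : ∃ h : H, ∃ (_ : ‖h‖ = 1)
      (hE : En (𝕜 := 𝕜) k' h ∈ Adm 𝕜 H), ‖inner 𝕜 h u‖ ≤ s / 4 ∧
      (∀ γ ∈ A, ∀ (m : ℕ) (ψ : Fin m → (XX 𝕜 H →L[𝕜] 𝕜))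
        (c : Fin m → Gam 𝕜 H) (v : XX 𝕜 H →L[𝕜] 𝕜), γ = Gam.node m ψ c v →
        (1 - s ^ 2) + s * σ * ∑ j, ‖En (𝕜 := 𝕜) k' h (c j)‖ * ‖ψ j‖ ≤ 1) ∧
      ‖ev _ hE (S (x0 𝕜 H))‖ ≤ θ ∧ ‖((ev bA hbA0).comp S) (inrL h)‖ ≤ θ := by
    obtain ⟨n, ⟨⟨e1, e2⟩, e3⟩, e4⟩ := (((E1.and E2).and E3).and E4).exists
    exact ⟨e n, horth.norm_eq_one n, En_mem (𝕜 := 𝕜) k' (horth.norm_eq_one n).le, e1, e2, e3, e4⟩
  have hunorm := unorm_le (𝕜 := 𝕜) hu hn1 hs0 hs1 e1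
  have hb' : pf A b k' h (1 - s ^ 2) (s * σ) ∈ Adm 𝕜 H :=
    pf_mem hAch hb hg hbase (by linarith) (by linarith [sq_nonneg s]) hs0.le hunorm
      (fun m ψ c v hmem => e2 _ hmem m ψ c v rfl)
  -- the test vector
  have hznorm := znorm_le (𝕜 := 𝕜) hn1 ht0
  have hSz : ‖S (x0 𝕜 H + (t : 𝕜) • inrL h)‖ ≤ 1 + t ^ 4 / 4 := by
    have := S.le_opNorm (x0 𝕜 H + (t : 𝕜) • inrL h)
    rw [hS, one_mul] at this
    exact this.trans hznorm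
  have hup : RCLike.re (ev _ hb' (S (x0 𝕜 H + (t : 𝕜) • inrL h))) ≤ 1 + t ^ 4 / 4 :=
    (RCLike.re_le_norm _).trans ((ev_le _ _ _).trans hSz)
  have hexp : ev _ hb' (S (x0 𝕜 H + (t : 𝕜) • inrL h)) =
      ((1 - s ^ 2 : ℝ) : 𝕜) * (ev bA hbA0 (S (x0 𝕜 H)) + (t : 𝕜) * ev bA hbA0 (S (inrL h))) +
      ((s * σ : ℝ) : 𝕜) * (ev _ hE (S (x0 𝕜 H)) + (t : 𝕜) * ev _ hE (S (inrL h))) := by
    rw [ev_pf hn1.le hb' (hbA h), ev_congr (hbA h) hbA0 (hbAeq h), map_add, map_smul,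
      map_add, map_add, map_smul, map_smul, smul_eq_mul, smul_eq_mul]
  have r2 : |RCLike.re (ev bA hbA0 (S (inrL h)))| ≤ θ :=
    (RCLike.abs_re_le_norm _).trans e4
  have r3 : |RCLike.re (ev _ hE (S (x0 𝕜 H)))| ≤ θ :=
    (RCLike.abs_re_le_norm _).trans e3'
  have r4 := r4_bound hSD hD hn1 hE
  rw [hexp, map_add, RCLike.re_ofReal_mul, RCLike.re_ofReal_mul, map_add, map_add,
    RCLike.re_ofReal_mul, RCLike.re_ofReal_mul] at hup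
  exact numeric hσ0 hσ1 hθ ht hs hbAv r2 r3 r4 hup

/-- The pair fails the pointwise BPB property. -/
theorem not_p [CompleteSpace H] (e : HilbertBasis ℕ 𝕜 H) : ¬ PointwiseBPB 𝕜 (XX 𝕜 H) (YY 𝕜 H) := by
  intro hP
  obtain ⟨η, hη, h⟩ := hP (1 / 2) (by norm_num)
  obtain ⟨k, hk⟩ := exists_nat_one_div_lt hη
  have hsig : sig k < η := by
    refine lt_of_le_of_lt ?_ hk
    unfold sig
    apply one_div_le_one_div_of_le (by positivity)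
    linarith
  obtain ⟨S, hS1, hS2, hS3⟩ := h (Tk k) (Tk_norm k (e.orthonormal.norm_eq_one 0)) (x0 𝕜 H)
    norm_x0 (lt_of_lt_of_le (by linarith) (Tk_x0 k))
  exact fail_core e k S (S - Tk k) (fun x => by rw [sub_apply]; abel) hS1 hS2 hS3

end

end H76BP
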