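import Pool.Agent.J4.H76.BP.Approx

/-!
# The compact version holds for the pair
-/

open Filter Topology Metric Set
open scoped ENNReal BoundedContinuousFunction

namespace H76BP

section
variable {𝕜 : Type} [RCLike 𝕜] {H : Type} [NormedAddCommGroup H] [InnerProductSpace 𝕜 H]

lemma compact_smulRight {X Y : Type} [NormedAddCommGroup X] [NormedSpace 𝕜 X]
    [NormedAddCommGroup Y] [NormedSpace 𝕜 Y] (φ : X →L[𝕜] 𝕜) (y : Y) :
    IsCompactOperator (φ.smulRight y) := by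
  have h1 : IsCompactOperator (ContinuousLinearMap.toSpanSingleton 𝕜 y) :=
    isCompactOperator_of_locallyCompactSpace_rng (ContinuousLinearMap.toSpanSingleton 𝕜 y)
  have h2 := h1.comp_clm φ
  exact h2

lemma compact_sum {X Y ι : Type} [NormedAddCommGroup X] [NormedSpace 𝕜 X]
    [NormedAddCommGroup Y] [NormedSpace 𝕜 Y] (s : Finset ι) (A : ι → (X →L[𝕜] Y))
    (h : ∀ i ∈ s, IsCompactOperator (A i)) : IsCompactOperator (∑ i ∈ s, A i : X →L[𝕜] Y) := by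
  classical
  induction s using Finset.induction_on with
  | empty =>
    rw [Finset.sum_empty]
    exact isCompactOperator_zero
  | insert a s ha ih =>
    rw [Finset.sum_insert ha]
    exact (h a (Finset.mem_insert_self _ _)).add
      (ih fun i hi => h i (Finset.mem_insert_of_mem hi))

lemma compact_op {n : ℕ} (ψ : Fin n → (XX 𝕜 H →L[𝕜] 𝕜)) (c : Fin n → Gam 𝕜 H) :
    IsCompactOperator (op ψ c) :=
  compact_sum _ _ fun _ _ => compact_smulRight _ _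

/-- Rotation of a scalar. -/
lemma exists_rot (z : 𝕜) : ∃ a : 𝕜, ‖a‖ = 1 ∧ a * z = (‖z‖ : 𝕜) := by
  by_cases h0 : z = 0
  · exact ⟨1, by simp, by rw [h0]; simp⟩
  · refine ⟨(‖z‖ : 𝕜) / z, ?_, ?_⟩
    · rw [norm_div, RCLike.norm_ofReal, abs_of_nonneg (norm_nonneg _),
        div_self (norm_ne_zero_iff.2 h0)]
    · rw [div_mul_cancel₀ _ h0]

/-- The correction of a finite rank contraction which nearly attains its norm at `x₀`. -/
lemma correct {n : ℕ} (ψ : Fin n → (XX 𝕜 H →L[𝕜] 𝕜)) (c : Fin n → Gam 𝕜 H)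
    (hop : ‖op ψ c‖ ≤ 1) (x₀ : XX 𝕜 H) (hx₀ : ‖x₀‖ = 1) {t : ℝ} (ht0 : 0 < t) (ht1 : t ≤ 1 / 2)
    (h : 1 - 2 * t ^ 2 < ‖op ψ c x₀‖) :
    ∃ S : XX 𝕜 H →L[𝕜] YY 𝕜 H, IsCompactOperator S ∧ ‖S‖ = 1 ∧ ‖S x₀‖ = 1 ∧
      ‖S - op ψ c‖ ≤ 6 * t := by
  obtain ⟨b, hb, hbv⟩ := exists_ev_gt (by nlinarith : (0 : ℝ) ≤ 1 - 2 * t ^ 2) h
  obtain ⟨a, ha1, ha2⟩ := exists_rot (ev b hb (op ψ c x₀))
  have hb1 := adm_smul hb ha1
  set b1 : Gam 𝕜 H → 𝕜 := fun γ => a * b γ with hb1def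
  set g : XX 𝕜 H →L[𝕜] 𝕜 := ∑ j, b1 (c j) • ψ j with hg
  have hgop : ∀ x, ‖g x‖ ≤ ‖x‖ := by
    intro x
    rw [hg, ← ev_op ψ c b1 hb1]
    refine (ev_le _ _ _).trans (((op ψ c).le_opNorm x).trans ?_)
    exact mul_le_of_le_one_left (norm_nonneg _) hop
  have hg1 : ‖g‖ ≤ 1 :=
    ContinuousLinearMap.opNorm_le_bound _ zero_le_one fun x => by rw [one_mul]; exact hgop x
  have hgx : g x₀ = (‖ev b hb (op ψ c x₀)‖ : 𝕜) := by
    rw [← ha2, ev_op, hg, hb1def]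
    simp only [sum_apply, smul_apply, smul_eq_mul, Finset.mul_sum]
    refine Finset.sum_congr rfl fun j _ => ?_
    ring
  have hgre : 1 - 2 * t ^ 2 ≤ RCLike.re (g x₀) := by
    rw [hgx, RCLike.ofReal_re]
    exact hbv.le
  obtain ⟨f, hf1, hf2⟩ := exists_dual_vector'' 𝕜 x₀
  have hfx : f x₀ = 1 := by rw [hf2, hx₀]; simp
  have hclose : ‖f - g‖ ≤ 6 * t := dual_close x₀ hx₀ f g hf1 hg1 hfx ht0 (by linarith) hgre
  set v : XX 𝕜 H →L[𝕜] 𝕜 := f - g with hv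
  obtain ⟨b', hb', hbc, hbn⟩ := adm_extend hb1 ψ c v (by
    have : ∑ j, b1 (c j) • ψ j + v = f := by rw [← hg, hv]; abel
    rw [this]
    exact hf1)
  set S : XX 𝕜 H →L[𝕜] YY 𝕜 H := op ψ c + v.smulRight (ge (.node n ψ c v)) with hS
  have hSle : ‖S‖ ≤ 1 := correct_norm_le ψ c v hop
  have hSx : ev b' hb' (S x₀) = 1 := by
    rw [hS, add_apply, map_add, ev_op, ContinuousLinearMap.smulRight_apply, map_smul, ev_ge, hbn]
    have e1 : (∑ j, b' (c j) • ψ j) x₀ = g x₀ := by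
      rw [hg]
      congr 1
      refine Finset.sum_congr rfl fun j _ => ?_
      rw [hbc]
    rw [e1, smul_eq_mul, mul_one, hv, sub_apply, hfx]
    ring
  have hSx1 : 1 ≤ ‖S x₀‖ := by
    have := ev_le b' hb' (S x₀)
    rw [hSx, norm_one] at this
    exact this
  have hSx2 : ‖S x₀‖ ≤ ‖S‖ := by
    have := S.le_opNorm x₀
    rwa [hx₀, mul_one] at this
  refine ⟨S, ?_, le_antisymm hSle (hSx1.trans hSx2), le_antisymm (hSx2.trans hSle) hSx1, ?_⟩
  · exact (compact_op ψ c).add (compact_smulRight _ _)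
  · have : S - op ψ c = v.smulRight (ge (.node n ψ c v)) := by rw [hS]; abel
    rw [this, ContinuousLinearMap.norm_smulRight_apply]
    have h1 := norm_ge_node_le ψ c v
    calc ‖v‖ * ‖ge (.node n ψ c v)‖ ≤ ‖v‖ * 1 :=
          mul_le_mul_of_nonneg_left h1 (norm_nonneg v)
      _ ≤ 6 * t := by rw [mul_one]; exact hclose

/-- The pair has the pointwise BPB property for compact operators. -/
theorem pk [CompleteSpace H] (e : HilbertBasis ℕ 𝕜 H) :
    PointwiseBPBCompact 𝕜 (XX 𝕜 H) (YY 𝕜 H) := by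
  intro ε hε
  set t : ℝ := min (1 / 2) (ε / 16) with ht
  have ht0 : 0 < t := by rw [ht]; exact lt_min (by norm_num) (by positivity)
  have ht1 : t ≤ 1 / 2 := min_le_left _ _
  have ht2 : t ≤ ε / 16 := min_le_right _ _
  refine ⟨t ^ 2, by positivity, ?_⟩
  intro T hT hT1 x₀ hx₀ hTx
  set δ : ℝ := min (t ^ 2 / 4) (ε / 16) with hδ
  have hδ0 : 0 < δ := by rw [hδ]; exact lt_min (by positivity) (by positivity)
  have hδ1 : δ ≤ t ^ 2 / 4 := min_le_left _ _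
  have hδ2 : δ ≤ ε / 16 := min_le_right _ _
  obtain ⟨n, ψ, c, hn⟩ := appr_compact e T hT δ hδ0
  set A := op ψ c with hA
  have hAn : ‖A‖ ≤ 1 + δ := by
    have : A = T - (T - A) := by abel
    rw [this]
    refine (norm_sub_le _ _).trans ?_
    rw [hT1]
    linarith
  set r : ℝ := (1 + δ)⁻¹ with hr
  have hr0 : 0 < r := by rw [hr]; positivity
  have hr1 : r * (1 + δ) = 1 := by rw [hr]; exact inv_mul_cancel₀ (by positivity)
  have hB : (r : 𝕜) • A = op (fun j => (r : 𝕜) • ψ j) c := by rw [hA, op_smul]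
  have hBn : ‖(r : 𝕜) • A‖ ≤ 1 := by
    rw [norm_smul, RCLike.norm_ofReal, abs_of_pos hr0]
    calc r * ‖A‖ ≤ r * (1 + δ) := mul_le_mul_of_nonneg_left hAn hr0.le
      _ = 1 := hr1
  have hBT : ‖T - (r : 𝕜) • A‖ ≤ 2 * δ := by
    have e1 : T - (r : 𝕜) • A = (T - A) + ((1 - r : ℝ) : 𝕜) • A := by
      rw [RCLike.ofReal_sub, sub_smul, RCLike.ofReal_one, one_smul]
      abel
    rw [e1]
    refine (norm_add_le _ _).trans ?_
    have h1 : 0 ≤ 1 - r := by nlinarith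
    have h2 : ‖((1 - r : ℝ) : 𝕜) • A‖ ≤ δ := by
      rw [norm_smul, RCLike.norm_ofReal, abs_of_nonneg h1]
      calc (1 - r) * ‖A‖ ≤ (1 - r) * (1 + δ) := mul_le_mul_of_nonneg_left hAn h1
        _ = δ := by linarith
    linarith
  have hBx : 1 - 2 * t ^ 2 < ‖((r : 𝕜) • A) x₀‖ := by
    have h1 : ‖T x₀ - ((r : 𝕜) • A) x₀‖ ≤ 2 * δ := by
      rw [← sub_apply]
      refine (ContinuousLinearMap.le_opNorm _ _).trans ?_
      rw [hx₀, mul_one]
      exact hBT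
    have h2 := norm_sub_norm_le (T x₀) (((r : 𝕜) • A) x₀)
    nlinarith
  rw [hB] at hBn hBx hBT
  obtain ⟨S, hS1, hS2, hS3, hS4⟩ := correct _ c hBn x₀ hx₀ ht0 ht1 hBx
  refine ⟨S, hS1, hS2, hS3, ?_⟩
  have e2 : S - T = (S - op (fun j => (r : 𝕜) • ψ j) c) -
      (T - op (fun j => (r : 𝕜) • ψ j) c) := by abel
  rw [e2]
  refine lt_of_le_of_lt (norm_sub_le _ _) ?_
  linarith

end

end H76BP
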