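import Pool.Agent.J4.H76.BP.Basic

/-!
# The range space
-/

open Filter Topology Metric Set
open scoped ENNReal BoundedContinuousFunction

namespace H76BP

section
variable (𝕜 : Type) [RCLike 𝕜] (H : Type) [NormedAddCommGroup H] [InnerProductSpace 𝕜 H]

/-- The generators of the range space: base vectors, and vectors which correct a finite rank
operator `∑ ψ j ⊗ c j` in the direction of the functional `v`. -/
inductive Gam : Type
  | base : ℕ → XX 𝕜 H → Gam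
  | node : (n : ℕ) → (Fin n → (XX 𝕜 H →L[𝕜] 𝕜)) → (Fin n → Gam) → (XX 𝕜 H →L[𝕜] 𝕜) → Gam

/-- The weights. -/
noncomputable def sig (k : ℕ) : ℝ := 1 / (k + 2)

lemma sig_pos (k : ℕ) : 0 < sig k := by unfold sig; positivity

lemma sig_le (k : ℕ) : sig k ≤ 1 / 2 := by
  unfold sig
  apply one_div_le_one_div_of_le (by norm_num)
  have : (0 : ℝ) ≤ k := Nat.cast_nonneg k
  linarith

variable {H} in
/-- The functional `(1 - σ) g + σ ⟨u, ·⟩` on `𝕜 ⊕₄ H`. -/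
noncomputable def bfun (s : ℝ) (g : XX 𝕜 H →L[𝕜] 𝕜) (u : H) (w : XX 𝕜 H) : 𝕜 :=
  ((1 - s : ℝ) : 𝕜) * g w + (s : 𝕜) * inner 𝕜 u w.snd

/-- The admissible functionals, as functions on the set of generators. -/
def Adm : Set (Gam 𝕜 H → 𝕜) :=
  {b | (∃ (k : ℕ) (g : XX 𝕜 H →L[𝕜] 𝕜) (u : H), ‖g‖ ≤ 1 ∧ ‖u‖ ≤ 1 ∧
      ∀ j w, b (.base j w) = if j = k then bfun 𝕜 (sig k) g u w else 0) ∧
    ∀ n ψ c v, b (.node n ψ c v) = 0 ∨ (‖b (.node n ψ c v)‖ ≤ 1 ∧
      ‖∑ j, b (c j) • ψ j + b (.node n ψ c v) • v‖ ≤ 1)}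

variable {𝕜 H}

lemma bfun_norm_le {s : ℝ} (hs0 : 0 ≤ s) (hs1 : s ≤ 1) {g : XX 𝕜 H →L[𝕜] 𝕜} {u : H}
    (hg : ‖g‖ ≤ 1) (hu : ‖u‖ ≤ 1) (w : XX 𝕜 H) : ‖bfun 𝕜 s g u w‖ ≤ ‖w‖ := by
  unfold bfun
  have h1 : ‖g w‖ ≤ ‖w‖ := (g.le_opNorm w).trans (mul_le_of_le_one_left (norm_nonneg _) hg)
  have h2 : ‖inner 𝕜 u w.snd‖ ≤ ‖w‖ := by
    refine (norm_inner_le_norm _ _).trans ?_
    refine (mul_le_of_le_one_left (norm_nonneg _) hu).trans ?_
    exact WithLp.norm_snd_le _ w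
  refine (norm_add_le _ _).trans ?_
  rw [norm_mul, norm_mul, RCLike.norm_ofReal, RCLike.norm_ofReal, abs_of_nonneg hs0,
    abs_of_nonneg (by linarith : (0 : ℝ) ≤ 1 - s)]
  nlinarith [mul_le_mul_of_nonneg_left h1 (by linarith : (0 : ℝ) ≤ 1 - s),
    mul_le_mul_of_nonneg_left h2 hs0]

/-- The bound of a generator. -/
noncomputable def bd : Gam 𝕜 H → ℝ
  | .base _ w => ‖w‖
  | .node _ _ _ _ => 1

lemma adm_bound {b : Gam 𝕜 H → 𝕜} (hb : b ∈ Adm 𝕜 H) (γ : Gam 𝕜 H) : ‖b γ‖ ≤ bd γ := by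
  obtain ⟨⟨k, g, u, hg, hu, hbase⟩, hnode⟩ := hb
  cases γ with
  | base j w =>
    rw [hbase]
    show _ ≤ ‖w‖
    split_ifs with h
    · exact bfun_norm_le (sig_pos k).le ((sig_le k).trans (by norm_num)) hg hu w
    · simp
  | node n ψ c v =>
    show _ ≤ (1 : ℝ)
    rcases hnode n ψ c v with h | h
    · rw [h]; simp
    · exact h.1

/-- The generator as a bounded function on the admissible functionals. -/
noncomputable def gen (γ : Gam 𝕜 H) : Adm 𝕜 H →ᵇ 𝕜 :=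
  BoundedContinuousFunction.ofNormedAddCommGroup (fun b => b.1 γ)
    ((continuous_apply γ).comp continuous_subtype_val) (bd γ) (fun b => adm_bound b.2 γ)

@[simp] lemma gen_apply (γ : Gam 𝕜 H) (b : Adm 𝕜 H) : gen γ b = b.1 γ := rfl

variable (𝕜 H) in
/-- The range space: the closed linear span of the generators. -/
noncomputable def YS : Submodule 𝕜 (Adm 𝕜 H →ᵇ 𝕜) :=
  (Submodule.span 𝕜 (Set.range (gen : Gam 𝕜 H → (Adm 𝕜 H →ᵇ 𝕜)))).topologicalClosure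

variable (𝕜 H) in
/-- The range space. -/
def YY : Type := YS 𝕜 H

noncomputable instance : NormedAddCommGroup (YY 𝕜 H) :=
  inferInstanceAs (NormedAddCommGroup (YS 𝕜 H))

noncomputable instance : NormedSpace 𝕜 (YY 𝕜 H) :=
  inferInstanceAs (NormedSpace 𝕜 (YS 𝕜 H))

instance : CompleteSpace (YY 𝕜 H) :=
  (Submodule.isClosed_topologicalClosure
    (Submodule.span 𝕜 (Set.range (gen : Gam 𝕜 H → (Adm 𝕜 H →ᵇ 𝕜))))).completeSpace_coe

/-- The inclusion of the range space. -/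
noncomputable def toB : YY 𝕜 H →ₗ[𝕜] (Adm 𝕜 H →ᵇ 𝕜) := (YS 𝕜 H).subtype

lemma norm_toB (y : YY 𝕜 H) : ‖toB y‖ = ‖y‖ := rfl

/-- The generator as an element of the range space. -/
noncomputable def ge (γ : Gam 𝕜 H) : YY 𝕜 H :=
  (⟨gen γ, Submodule.le_topologicalClosure _ (Submodule.subset_span ⟨γ, rfl⟩)⟩ : YS 𝕜 H)

/-- Evaluation at an admissible functional. -/
noncomputable def ev (b : Gam 𝕜 H → 𝕜) (hb : b ∈ Adm 𝕜 H) : YY 𝕜 H →L[𝕜] 𝕜 :=
  LinearMap.mkContinuous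
    { toFun := fun y => toB y ⟨b, hb⟩
      map_add' := fun x y => by simp
      map_smul' := fun a x => by simp } 1
    (fun y => by
      rw [one_mul]
      exact (toB y).norm_coe_le_norm ⟨b, hb⟩)

lemma ev_apply (b : Gam 𝕜 H → 𝕜) (hb : b ∈ Adm 𝕜 H) (y : YY 𝕜 H) :
    ev b hb y = toB y ⟨b, hb⟩ := rfl

lemma ev_ge (b : Gam 𝕜 H → 𝕜) (hb : b ∈ Adm 𝕜 H) (γ : Gam 𝕜 H) : ev b hb (ge γ) = b γ := rfl

lemma ev_le (b : Gam 𝕜 H → 𝕜) (hb : b ∈ Adm 𝕜 H) (y : YY 𝕜 H) : ‖ev b hb y‖ ≤ ‖y‖ :=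
  (toB y).norm_coe_le_norm ⟨b, hb⟩

lemma norm_le_of_ev {y : YY 𝕜 H} {C : ℝ} (hC : 0 ≤ C)
    (h : ∀ (b : Gam 𝕜 H → 𝕜) (hb : b ∈ Adm 𝕜 H), ‖ev b hb y‖ ≤ C) : ‖y‖ ≤ C := by
  rw [← norm_toB, BoundedContinuousFunction.norm_le hC]
  intro b
  exact h b.1 b.2

lemma exists_ev_gt {y : YY 𝕜 H} {C : ℝ} (hC : 0 ≤ C) (h : C < ‖y‖) :
    ∃ (b : Gam 𝕜 H → 𝕜) (hb : b ∈ Adm 𝕜 H), C < ‖ev b hb y‖ := by
  by_contra hcon
  push Not at hcon
  exact absurd (norm_le_of_ev hC hcon) (not_le.2 h)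

/-- Induction on the range space: a closed property which holds on the generators and is
preserved by sums and multiples holds everywhere. -/
lemma YY_induction {p : YY 𝕜 H → Prop} (hgen : ∀ γ, p (ge γ)) (h0 : p 0)
    (hadd : ∀ x y, p x → p y → p (x + y)) (hsmul : ∀ (a : 𝕜) x, p x → p (a • x))
    (hcl : ∀ y, (∀ δ > 0, ∃ x, p x ∧ ‖y - x‖ < δ) → p y) (y : YY 𝕜 H) : p y := by
  have hspan : ∀ z (hz : z ∈ Submodule.span 𝕜 (Set.range (gen : Gam 𝕜 H → (Adm 𝕜 H →ᵇ 𝕜)))),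
      p (⟨z, Submodule.le_topologicalClosure _ hz⟩ : YS 𝕜 H) := by
    intro z hz
    induction hz using Submodule.span_induction with
    | mem x hx =>
      obtain ⟨γ, rfl⟩ := hx
      exact hgen γ
    | zero => exact h0
    | add x y hx hy h1 h2 => exact hadd _ _ h1 h2
    | smul a x hx h1 => exact hsmul a _ h1
  apply hcl
  intro δ hδ
  have hy : toB y ∈ closure
      (Submodule.span 𝕜 (Set.range (gen : Gam 𝕜 H → (Adm 𝕜 H →ᵇ 𝕜))) : Set (Adm 𝕜 H →ᵇ 𝕜)) :=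
    Subtype.prop (p := fun z => z ∈ YS 𝕜 H) y
  obtain ⟨z, hz, hzy⟩ := Metric.mem_closure_iff.1 hy δ hδ
  refine ⟨(⟨z, Submodule.le_topologicalClosure _ hz⟩ : YS 𝕜 H), hspan z hz, ?_⟩
  rw [dist_eq_norm] at hzy
  exact hzy

/-- The admissible functionals are closed under multiplication by unimodular scalars. -/
lemma adm_smul {b : Gam 𝕜 H → 𝕜} (hb : b ∈ Adm 𝕜 H) {a : 𝕜} (ha : ‖a‖ = 1) :
    (fun γ => a * b γ) ∈ Adm 𝕜 H := by
  obtain ⟨⟨k, g, u, hg, hu, hbase⟩, hnode⟩ := hb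
  refine ⟨⟨k, a • g, (starRingEnd 𝕜 a) • u, ?_, ?_, ?_⟩, ?_⟩
  · rw [norm_smul, ha, one_mul]; exact hg
  · rw [norm_smul, RCLike.norm_conj, ha, one_mul]; exact hu
  · intro j w
    simp only
    rw [hbase]
    split_ifs
    · unfold bfun
      rw [inner_smul_left, RCLike.conj_conj, smul_apply, smul_eq_mul]
      ring
    · simp
  · intro n ψ c v
    simp only
    rcases hnode n ψ c v with h | ⟨h1, h2⟩
    · left; rw [h, mul_zero]
    · right
      refine ⟨by rw [norm_mul, ha, one_mul]; exact h1, ?_⟩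
      have : ∑ j, (a * b (c j)) • ψ j + (a * b (.node n ψ c v)) • v =
          a • (∑ j, b (c j) • ψ j + b (.node n ψ c v) • v) := by
        rw [smul_add, Finset.smul_sum]
        simp only [smul_smul]
      rw [this, norm_smul, ha, one_mul]
      exact h2

/-- The level of a generator. -/
def level : Gam 𝕜 H → ℕ
  | .base _ _ => 0
  | .node _ _ c _ => (Finset.univ.sup fun j => level (c j)) + 1

lemma level_child {n : ℕ} (ψ : Fin n → (XX 𝕜 H →L[𝕜] 𝕜)) (c : Fin n → Gam 𝕜 H)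
    (v : XX 𝕜 H →L[𝕜] 𝕜) (j : Fin n) : level (c j) < level (.node n ψ c v) := by
  show level (c j) < (Finset.univ.sup fun j => level (c j)) + 1
  exact Nat.lt_succ_of_le (Finset.le_sup (f := fun j => level (c j)) (Finset.mem_univ j))

open Classical in
/-- Extending an admissible functional to one more generator. -/
lemma adm_extend {b : Gam 𝕜 H → 𝕜} (hb : b ∈ Adm 𝕜 H) {n : ℕ} (ψ : Fin n → (XX 𝕜 H →L[𝕜] 𝕜))
    (c : Fin n → Gam 𝕜 H) (v : XX 𝕜 H →L[𝕜] 𝕜) (hv : ‖∑ j, b (c j) • ψ j + v‖ ≤ 1) :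
    ∃ b' ∈ Adm 𝕜 H, (∀ j, b' (c j) = b (c j)) ∧ b' (.node n ψ c v) = 1 := by
  obtain ⟨⟨k, g, u, hg, hu, hbase⟩, hnode⟩ := hb
  set L := level (Gam.node n ψ c v) with hL
  have hLpos : 0 < L := by rw [hL]; exact Nat.succ_pos _
  refine ⟨fun γ => if level γ < L then b γ else if γ = .node n ψ c v then 1 else 0,
    ⟨⟨k, g, u, hg, hu, ?_⟩, ?_⟩, ?_, ?_⟩
  · intro j w
    have : level (Gam.base j w : Gam 𝕜 H) < L := hLpos
    simp only [this, if_true]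
    exact hbase j w
  · intro n' ψ' c' v'
    by_cases h1 : level (Gam.node n' ψ' c' v') < L
    · have h2 : ∀ j, level (c' j) < L := fun j => (level_child ψ' c' v' j).trans h1
      simp only [h1, h2, if_true]
      exact hnode n' ψ' c' v'
    · by_cases h3 : Gam.node n' ψ' c' v' = Gam.node n ψ c v
      · right
        cases h3
        have h2 : ∀ j, level (c j) < L := fun j => level_child ψ c v j
        simp only [h1, h2, if_true, if_false]
        refine ⟨by simp, ?_⟩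
        rw [one_smul]
        exact hv
      · left
        simp only [h1, h3, if_false]
  · intro j
    have h2 : level (c j) < L := level_child ψ c v j
    simp only [h2, if_true]
  · simp only [← hL, lt_irrefl, if_false, if_true]

/-- The finite rank operator `∑ ψ j ⊗ c j`. -/
noncomputable def op {n : ℕ} (ψ : Fin n → (XX 𝕜 H →L[𝕜] 𝕜)) (c : Fin n → Gam 𝕜 H) :
    XX 𝕜 H →L[𝕜] YY 𝕜 H :=
  ∑ j, (ψ j).smulRight (ge (c j))

lemma ev_op {n : ℕ} (ψ : Fin n → (XX 𝕜 H →L[𝕜] 𝕜)) (c : Fin n → Gam 𝕜 H)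
    (b : Gam 𝕜 H → 𝕜) (hb : b ∈ Adm 𝕜 H) (x : XX 𝕜 H) :
    ev b hb (op ψ c x) = (∑ j, b (c j) • ψ j) x := by
  unfold op
  rw [sum_apply, map_sum, sum_apply]
  refine Finset.sum_congr rfl fun j _ => ?_
  rw [ContinuousLinearMap.smulRight_apply, map_smul, ev_ge, smul_apply,
    smul_eq_mul, smul_eq_mul, mul_comm]

/-- The correction of a finite rank contraction is a contraction. -/
lemma correct_norm_le {n : ℕ} (ψ : Fin n → (XX 𝕜 H →L[𝕜] 𝕜)) (c : Fin n → Gam 𝕜 H)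
    (v : XX 𝕜 H →L[𝕜] 𝕜) (h : ‖op ψ c‖ ≤ 1) :
    ‖op ψ c + v.smulRight (ge (.node n ψ c v))‖ ≤ 1 := by
  apply ContinuousLinearMap.opNorm_le_bound _ zero_le_one
  intro x
  rw [one_mul]
  apply norm_le_of_ev (norm_nonneg x)
  intro b hb
  rw [add_apply, map_add, ContinuousLinearMap.smulRight_apply, map_smul,
    ev_ge]
  rcases hb.2 n ψ c v with h0 | ⟨h1, h2⟩
  · rw [h0, smul_zero, add_zero]
    refine (ev_le _ _ _).trans (((op ψ c).le_opNorm x).trans ?_)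
    exact mul_le_of_le_one_left (norm_nonneg _) h
  · rw [ev_op]
    have e : (∑ j, b (c j) • ψ j) x + v x • b (.node n ψ c v) =
        (∑ j, b (c j) • ψ j + b (.node n ψ c v) • v) x := by
      rw [add_apply, smul_apply, smul_eq_mul,
        smul_eq_mul, mul_comm (v x)]
    rw [e]
    refine (ContinuousLinearMap.le_opNorm _ x).trans ?_
    exact mul_le_of_le_one_left (norm_nonneg _) h2

lemma norm_ge_node_le {n : ℕ} (ψ : Fin n → (XX 𝕜 H →L[𝕜] 𝕜)) (c : Fin n → Gam 𝕜 H)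
    (v : XX 𝕜 H →L[𝕜] 𝕜) : ‖ge (.node n ψ c v)‖ ≤ 1 := by
  apply norm_le_of_ev zero_le_one
  intro b hb
  rw [ev_ge]
  exact adm_bound hb _

end

end H76BP
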